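import Pool.Agent.Helper88.CR.GoalsB
import Pool.Agent.Helper88.GM.KX

/-! # Project CS: the parameters, with a small scale -/

set_option autoImplicit false

open Finset Filter Topology

open scoped Classical

namespace Pool.Agent.Helper88.CS

open Pool.Agent.Helper88.PP (pr om QQ)
open Pool.Agent.Helper88.GM (Sr)
open Pool.Agent.Helper88.CR (Rec StmtOM)

/-- The parameters, with `E ^ 4 ≤ log x` and `w ≤ log x / (C (log log x)^2)`. -/
def StmtPM2 : Prop := ∃ A : ℝ, 1 ≤ A ∧ ∀ (B C c : ℝ) (E0 : ℕ), 1 ≤ B → 1 ≤ C → 0 < c → c ≤ 1 →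
  ∃ x0 : ℕ, ∀ x : ℕ, x0 ≤ x → ∃ E z w y : ℕ, E0 ≤ E ∧ Sr E z x y ∧ y ≤ z ∧
    √(Real.log x) ≤ w ∧ C * (w * Real.log (Real.log x) ^ 2) ≤ Real.log x ∧
    primorial w ∣ QQ x ∧ w * Real.log w ≤ y ∧ (y : ℝ) ≤ w * Real.log w ^ 4 ∧
    c * Rec x ≤ y ∧
    y * Real.log (Real.log w) ^ 2 / (Real.log w ^ 2 * Real.log (Real.log (Real.log w))) * om y z
      ≤ A * c * (E * Real.log E) ∧
    Real.log w / (A * Real.log x) ≤ om y z / E ∧ om y z / E ≤ A * Real.log w / Real.log x ∧
    B * (Real.log x * Real.log w) ≤ y ∧ (E : ℝ) ^ 4 ≤ Real.log x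

theorem pm2_ev (B C c : ℝ) (E0 : ℕ) (hB : 1 ≤ B) (hC : 1 ≤ C) (hc : 0 < c) :
    ∀ᶠ x : ℕ in atTop, (E0 : ℝ) ≤ √(√(Real.log x)) ∧
      20 ≤ Real.log (Real.log x) ∧
      2 ≤ Real.log (Real.log (Real.log x)) ∧
      4 ≤ Real.log (Real.log (Real.log (Real.log x))) ∧
      B * Real.log (Real.log (Real.log x)) ^ 2 ≤ c * Real.log (Real.log x) ∧
      (√(Real.log x) + 1) * (C * Real.log (Real.log x) ^ 2) ≤ Real.log x ∧
      4 * Real.log (Real.log x) ^ 2 ≤ Real.log x ∧
      64 * C * Real.log (Real.log (Real.log (Real.log x))) ≤ Real.log (Real.log (Real.log x)) ^ 2 ∧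
      Real.log (Real.log x) ^ 3 + 4 ≤ √(√(Real.log x)) := by
  have t1 : Tendsto (fun x : ℕ => Real.log (x : ℝ)) atTop atTop :=
    Real.tendsto_log_atTop.comp tendsto_natCast_atTop_atTop
  have t2 : Tendsto (fun x : ℕ => Real.log (Real.log (x : ℝ))) atTop atTop :=
    Real.tendsto_log_atTop.comp t1
  have t3 : Tendsto (fun x : ℕ => Real.log (Real.log (Real.log (x : ℝ)))) atTop atTop :=
    Real.tendsto_log_atTop.comp t2
  have t4 : Tendsto (fun x : ℕ => Real.log (Real.log (Real.log (Real.log (x : ℝ))))) atTop atTop :=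
    Real.tendsto_log_atTop.comp t3
  have tss : Tendsto (fun x : ℕ => √(√(Real.log (x : ℝ)))) atTop atTop :=
    Real.tendsto_sqrt_atTop.comp (Real.tendsto_sqrt_atTop.comp t1)
  have hpl : ∀ (n : ℕ) (ε : ℝ), 0 < ε → ∀ᶠ u : ℝ in atTop, Real.log u ^ n ≤ ε * u := by
    intro n ε hε
    have h1 : ∀ᶠ u : ℝ in atTop, ‖Real.log u ^ n‖ ≤ ε * ‖id u‖ :=
      (Asymptotics.isLittleO_iff.1 Real.isLittleO_pow_log_id_atTop) hε
    filter_upwards [h1, eventually_ge_atTop (1 : ℝ)] with u h2 h3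
    have h4 : 0 ≤ Real.log u := Real.log_nonneg h3
    rw [id, Real.norm_of_nonneg (by positivity), Real.norm_of_nonneg (by linarith)] at h2
    exact h2
  have e1 : ∀ᶠ u : ℝ in atTop, B * Real.log u ^ 2 ≤ c * u := by
    have hB0 : 0 < B := by linarith
    filter_upwards [hpl 2 (c / B) (by positivity)] with u h2
    calc B * Real.log u ^ 2 ≤ B * (c / B * u) := mul_le_mul_of_nonneg_left h2 hB0.le
      _ = c * u := by field_simp
  -- `log s = 2 log (√ s)`
  have e2 : ∀ᶠ u : ℝ in atTop, (√u + 1) * (C * Real.log u ^ 2) ≤ u := by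
    have hC0 : 0 < C := by linarith
    filter_upwards [Real.tendsto_sqrt_atTop.eventually (hpl 2 (1 / (8 * C)) (by positivity)),
      eventually_ge_atTop (1 : ℝ)] with u h2 h3
    have hs1 : 1 ≤ √u := by
      rw [Real.one_le_sqrt]
      exact h3
    have h4 : Real.log (√u) = Real.log u / 2 := Real.log_sqrt (by linarith)
    rw [h4] at h2
    have h5 : Real.log u ^ 2 ≤ 1 / (2 * C) * √u := by
      have h6 : Real.log u ^ 2 = 4 * (Real.log u / 2) ^ 2 := by ring
      have h7 : 4 * (1 / (8 * C) * √u) = 1 / (2 * C) * √u := by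
        field_simp
        norm_num
      rw [h6, ← h7]
      linarith only [h2]
    calc (√u + 1) * (C * Real.log u ^ 2) ≤ (√u + √u) * (C * (1 / (2 * C) * √u)) := by
          gcongr
      _ = √u * √u := by field_simp; ring
      _ = u := Real.mul_self_sqrt (by linarith only [h3])
  have e3 : ∀ᶠ u : ℝ in atTop, 4 * Real.log u ^ 2 ≤ u := by
    filter_upwards [hpl 2 (1 / 4) (by norm_num)] with u h2
    linarith
  have e4 : ∀ᶠ u : ℝ in atTop, 64 * C * Real.log u ≤ u ^ 2 := by
    filter_upwards [hpl 1 (1 / (64 * C)) (by positivity), eventually_ge_atTop (1 : ℝ)] with u h2 h3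
    rw [pow_one] at h2
    have h4 : 64 * C * Real.log u ≤ 64 * C * (1 / (64 * C) * u) :=
      mul_le_mul_of_nonneg_left h2 (by positivity)
    have h5 : 64 * C * (1 / (64 * C) * u) = u := by field_simp
    nlinarith only [h3, h4, h5]
  have e5 : ∀ᶠ u : ℝ in atTop, Real.log u ^ 3 + 4 ≤ √(√u) := by
    filter_upwards [(Real.tendsto_sqrt_atTop.comp Real.tendsto_sqrt_atTop).eventually
      (hpl 3 (1 / 128) (by norm_num)), eventually_ge_atTop (4096 : ℝ)] with u h2 h3
    simp only [Function.comp] at h2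
    have h4 : Real.log (√(√u)) = Real.log u / 4 := by
      rw [Real.log_sqrt (Real.sqrt_nonneg _), Real.log_sqrt (by linarith only [h3])]
      ring
    rw [h4] at h2
    have h6 : (8 : ℝ) ≤ √(√u) := by
      apply Real.le_sqrt_of_sq_le
      apply Real.le_sqrt_of_sq_le
      norm_num
      exact h3
    have h7 : Real.log u ^ 3 = 64 * (Real.log u / 4) ^ 3 := by ring
    rw [h7]
    linarith only [h2, h6]
  filter_upwards [tss.eventually_ge_atTop (E0 : ℝ), t2.eventually_ge_atTop 20,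
    t3.eventually_ge_atTop 2, t4.eventually_ge_atTop 4,
    t2.eventually e1, t1.eventually e2, t1.eventually e3, t3.eventually e4, t1.eventually e5]
    with x a1 a2 a4 a5 a6 a7 a8 a9 a10
  exact ⟨a1, a2, a4, a5, a6, a7, a8, a9, a10⟩

/-- The parameters. -/
theorem pm2 (h : StmtOM) : StmtPM2 := by
  obtain ⟨c4, hc4, hOM⟩ := h
  obtain ⟨C3, hC3, hmp⟩ := Pool.Agent.Helper37.PP.mp
  refine ⟨max 1 (max (512 * C3) (1 / c4)), le_max_left _ _, ?_⟩
  set A : ℝ := max 1 (max (512 * C3) (1 / c4)) with hA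
  have hA1 : 1 ≤ A := le_max_left _ _
  have hA2 : 512 * C3 ≤ A := (le_max_left _ _).trans (le_max_right _ _)
  have hA3 : 1 / c4 ≤ A := (le_max_right _ _).trans (le_max_right _ _)
  clear_value A
  intro B C c E0 hB hC hc hc1
  obtain ⟨x0, hx0⟩ := eventually_atTop.1 (pm2_ev B C c E0 hB hC hc)
  refine ⟨x0, fun x hx => ?_⟩
  obtain ⟨a1, a2, a4, a5, a6, a7, a8, a9, a10⟩ := hx0 x hx
  set l1 := Real.log (x : ℝ) with h1
  set l2 := Real.log l1 with h2
  set l3 := Real.log l2 with h3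
  set l4 := Real.log l3 with h4
  have hl1 : 1600 ≤ l1 := by nlinarith only [a8, a2]
  have hl10 : 0 < l1 := by linarith only [hl1]
  have hl2 : 0 < l2 := by linarith only [a2]
  have hl3 : 0 < l3 := by linarith only [a4]
  have hl4 : 0 < l4 := by linarith only [a5]
  have hxpos : (0 : ℝ) < x := by
    by_contra hcon
    have h5 : (x : ℝ) = 0 := le_antisymm (not_lt.1 hcon) (Nat.cast_nonneg _)
    rw [h1, h5, Real.log_zero] at hl10
    linarith only [hl10]
  -- the scale
  set t := √(√l1) with ht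
  have ht4 : t ^ 4 = l1 := by
    have h5 : t ^ 2 = √l1 := Real.sq_sqrt (Real.sqrt_nonneg _)
    have h6 : √l1 ^ 2 = l1 := Real.sq_sqrt hl10.le
    calc t ^ 4 = (t ^ 2) ^ 2 := by ring
      _ = l1 := by rw [h5, h6]
  have hl23 : 0 < l2 ^ 3 := by positivity
  have ht0 : 4 ≤ t := by linarith only [a10, hl23]
  obtain ⟨E, hE⟩ : ∃ E, E = ⌊t⌋₊ := ⟨_, rfl⟩
  have hE1 : (E : ℝ) ≤ t := by rw [hE]; exact Nat.floor_le (by linarith only [a10, hl23])
  have hE2 : t < (E : ℝ) + 1 := by rw [hE]; exact Nat.lt_floor_add_one _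
  have hE3 : (3 : ℝ) ≤ E := by linarith only [a10, hl23, hE2]
  have hEpos : (0 : ℝ) < E := by linarith only [a10, hl23, hE2]
  have hE0' : 1 ≤ E := by exact_mod_cast (by linarith only [a10, hl23, hE2] : (1 : ℝ) ≤ E)
  have hE4 : (E : ℝ) ^ 4 ≤ l1 := by
    rw [← ht4]
    exact pow_le_pow_left₀ hEpos.le hE1 4
  have hE5 : l2 ^ 3 ≤ E := by linarith only [a10, hE2]
  have hE6 : E0 ≤ E := by
    rw [hE]
    exact Nat.le_floor a1
  have hE7 : t ≤ 2 * E := by linarith only [a10, hl23, hE2]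
  have hE8 : l1 ≤ 16 * (E : ℝ) ^ 4 := by
    rw [← ht4]
    calc t ^ 4 ≤ (2 * (E : ℝ)) ^ 4 := pow_le_pow_left₀ (by linarith only [a10, hl23]) hE7 4
      _ = 16 * (E : ℝ) ^ 4 := by ring
  have hlogE : l2 ≤ 8 * Real.log E := by
    have h5 : l2 ≤ Real.log (16 * (E : ℝ) ^ 4) := Real.log_le_log hl10 hE8
    rw [Real.log_mul (by norm_num) (by positivity), Real.log_pow] at h5
    have h6 : Real.log (16 : ℝ) = 4 * Real.log 2 := by
      rw [show (16 : ℝ) = 2 ^ 4 by norm_num, Real.log_pow]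
      norm_num
    have := Real.log_two_lt_d9
    push_cast at h5
    rw [h6] at h5
    linarith only [a2, h5, this]
  have hlogE0 : 0 < Real.log E := by linarith only [a2, hlogE]
  have hE9 : 4 * (E : ℝ) ^ 2 ≤ l1 := by
    have h5 : 4 * (E : ℝ) ^ 2 ≤ (E : ℝ) ^ 4 := by
      have h6 : (4 : ℝ) ≤ (E : ℝ) ^ 2 := by nlinarith only [hE3]
      have h7 : (E : ℝ) ^ 4 = (E : ℝ) ^ 2 * (E : ℝ) ^ 2 := by ring
      rw [h7]
      exact mul_le_mul_of_nonneg_right h6 (by positivity)
    linarith only [hE4, h5]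
  obtain ⟨z, z1, z2, z3⟩ := Pool.Agent.Helper88.PP.root_exists E 1 x hE0' (by
    rw [one_pow]
    exact_mod_cast (Nat.cast_pos.1 hxpos))
  have hzpos : (0 : ℝ) < z := by exact_mod_cast (by omega : 0 < z)
  have hz1' : (1 : ℝ) ≤ z := by exact_mod_cast z1
  have hlz2 : Real.log z ≤ l1 / E := by
    rw [le_div_iff₀ hEpos, mul_comm, ← Real.log_pow]
    exact Real.log_le_log (by positivity) (by exact_mod_cast z2)
  have hlz1 : l1 / (2 * E) ≤ Real.log z := by
    have h5 : l1 ≤ E * Real.log ((z : ℝ) + 1) := by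
      rw [← Real.log_pow]
      exact Real.log_le_log hxpos (by exact_mod_cast z3.le)
    have h6 : Real.log ((z : ℝ) + 1) ≤ Real.log z + Real.log 2 := by
      rw [← Real.log_mul (by positivity) (by norm_num)]
      exact Real.log_le_log (by positivity) (by linarith only [hz1'])
    have h7 := Real.log_two_lt_d9
    have h8 : 2 * (E : ℝ) ≤ l1 := by nlinarith only [hE9, hE3]
    rw [div_le_iff₀ (by positivity)]
    have h9 : (E : ℝ) * Real.log ((z : ℝ) + 1) ≤ E * (Real.log z + Real.log 2) :=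
      mul_le_mul_of_nonneg_left h6 hEpos.le
    have h10 : (E : ℝ) * Real.log 2 ≤ E * 1 := mul_le_mul_of_nonneg_left (by linarith only [h7]) hEpos.le
    have h11 : (E : ℝ) * (Real.log z + Real.log 2) = E * Real.log z + E * Real.log 2 := by ring
    have h12 : Real.log z * (2 * E) = 2 * (E * Real.log z) := by ring
    rw [h12]
    linarith only [h5, h8, h9, h10]
  have hlzE : (E : ℝ) ≤ Real.log z := by
    refine le_trans ?_ hlz1
    rw [le_div_iff₀ (by positivity)]
    nlinarith only [hE9, hE3]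
  have hzE : Real.exp E ≤ z := by
    rw [← Real.le_log_iff_exp_le hzpos]
    exact hlzE
  have hlz0 : 0 < Real.log z := by linarith only [a10, hl23, hE2, hlzE]
  -- w
  set w := ⌊l1 / (C * l2 ^ 2)⌋₊ with hw
  have hC0 : 0 < C := by linarith only [hC]
  have hCl : 0 < C * l2 ^ 2 := by positivity
  have hw1 : (w : ℝ) ≤ l1 / (C * l2 ^ 2) := Nat.floor_le (by positivity)
  have hw2 : l1 / (C * l2 ^ 2) < w + 1 := Nat.lt_floor_add_one _
  have hws : √l1 ≤ w := by
    have : √l1 + 1 ≤ l1 / (C * l2 ^ 2) := by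
      rw [le_div_iff₀ hCl]
      exact a7
    linarith only [hw2, this]
  have hwC : C * (w * l2 ^ 2) ≤ l1 := by
    rw [le_div_iff₀ hCl] at hw1
    linarith only [hw1]
  have hs1 : 1 ≤ √l1 := by
    rw [Real.one_le_sqrt]
    linarith only [hl1]
  have hwpos : (0 : ℝ) < w := by linarith only [hws, hs1]
  have hwhalf : l1 / (C * l2 ^ 2) ≤ 2 * w := by linarith only [hw2, hws, hs1]
  have hCl20 : 20 ≤ C * l2 ^ 2 := by
    have h5 : (20 : ℝ) ≤ l2 ^ 2 := by nlinarith only [a2]
    calc (20 : ℝ) ≤ l2 ^ 2 := h5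
      _ = 1 * l2 ^ 2 := by ring
      _ ≤ C * l2 ^ 2 := mul_le_mul_of_nonneg_right hC (by positivity)
  have hw20 : (w : ℝ) ≤ l1 / 20 := by
    refine hw1.trans ?_
    exact div_le_div_of_nonneg_left (by linarith only [hl1]) (by norm_num) hCl20
  have hwl1 : (w : ℝ) ≤ l1 := by linarith only [hl1, hw20]
  -- logarithms of w
  have g1 : l2 / 2 ≤ Real.log w := by
    have h5 : Real.log (√l1) ≤ Real.log w := Real.log_le_log (by linarith only [hs1]) hws
    rw [Real.log_sqrt (by linarith only [hl1])] at h5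
    exact h5
  have g2 : Real.log w ≤ l2 := Real.log_le_log hwpos hwl1
  have g1' : 0 < Real.log w := by linarith only [a2, g1]
  have g3 : l3 / 2 ≤ Real.log (Real.log w) := by
    have h5 : Real.log (l2 / 2) ≤ Real.log (Real.log w) := Real.log_le_log (by linarith only [a2]) g1
    rw [Real.log_div (by linarith only [a2]) (by norm_num)] at h5
    have := Real.log_two_lt_d9
    linarith only [a4, h5, this]
  have g4 : Real.log (Real.log w) ≤ l3 := Real.log_le_log g1' g2
  have g3' : 0 < Real.log (Real.log w) := by linarith only [a4, g3]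
  have g5 : l4 / 2 ≤ Real.log (Real.log (Real.log w)) := by
    have h5 : Real.log (l3 / 2) ≤ Real.log (Real.log (Real.log w)) :=
      Real.log_le_log (by linarith only [a4]) g3
    rw [Real.log_div (by linarith only [a4]) (by norm_num)] at h5
    have := Real.log_two_lt_d9
    linarith only [a5, h5, this]
  -- Rec
  set G : ℝ := l1 * l2 ^ 2 * l4 / l3 ^ 2 with hG
  have hRec : Rec x = G := rfl
  have hBG : B * (l1 * l2) ≤ c * G := by
    rw [hG]
    have h5 : B * (l1 * l2) * l3 ^ 2 ≤ c * (l1 * l2 ^ 2 * l4) := by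
      calc B * (l1 * l2) * l3 ^ 2 = (l1 * l2) * (B * l3 ^ 2) := by ring
        _ ≤ (l1 * l2) * (c * l2) := mul_le_mul_of_nonneg_left a6 (by positivity)
        _ = (c * (l1 * l2 ^ 2)) * 1 := by ring
        _ ≤ (c * (l1 * l2 ^ 2)) * l4 := mul_le_mul_of_nonneg_left (by linarith only [a5]) (by positivity)
        _ = c * (l1 * l2 ^ 2 * l4) := by ring
    rw [← mul_div_assoc, le_div_iff₀ (by positivity)]
    exact h5
  have hG0 : 0 < G := by positivity
  have hl12 : l1 ≤ l1 * l2 := by nlinarith only [a2, hl10]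
  have hl12' : 0 < l1 * l2 := by positivity
  have hcG1 : l1 * l2 ≤ c * G := by
    calc l1 * l2 = 1 * (l1 * l2) := by ring
      _ ≤ B * (l1 * l2) := mul_le_mul_of_nonneg_right hB hl12'.le
      _ ≤ c * G := hBG
  have hGle : G ≤ l1 * l2 ^ 2 := by
    rw [hG, div_le_iff₀ (by positivity)]
    have h5 : l4 ≤ l3 := by
      have := Real.log_le_sub_one_of_pos hl3
      linarith only [this]
    have h6 : l4 ≤ l3 ^ 2 := by nlinarith only [h5, a4]
    exact mul_le_mul_of_nonneg_left h6 (by positivity)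
  have hGle2 : 64 * C * G ≤ l1 * l2 ^ 2 := by
    have h5 : 64 * C * G = l1 * l2 ^ 2 * (64 * C * l4) / l3 ^ 2 := by
      rw [hG]
      ring
    rw [h5, div_le_iff₀ (by positivity)]
    exact mul_le_mul_of_nonneg_left a9 (by positivity)
  -- y
  set y := ⌈c * G⌉₊ with hy
  have hy1 : c * G ≤ y := Nat.le_ceil _
  have hy2 : (y : ℝ) < c * G + 1 := Nat.ceil_lt_add_one (by positivity)
  have hy3 : (y : ℝ) ≤ 2 * (c * G) := by linarith only [hl1, hl12, hcG1, hy2]
  have hy4 : (y : ℝ) ≤ 2 * (l1 * l2 ^ 2) := by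
    calc (y : ℝ) ≤ 2 * (c * G) := hy3
      _ ≤ 2 * (1 * (l1 * l2 ^ 2)) := by gcongr
      _ = _ := by ring
  have hy5 : (y : ℝ) ≤ l1 ^ 2 := by
    calc (y : ℝ) ≤ 2 * (l1 * l2 ^ 2) := hy4
      _ = l1 * (2 * l2 ^ 2) := by ring
      _ ≤ l1 * l1 := mul_le_mul_of_nonneg_left (by nlinarith only [a8, sq_nonneg l2]) (by linarith only [hl1])
      _ = l1 ^ 2 := by ring
  have hly : l1 ≤ y := by linarith only [hl12, hcG1, hy1]
  have hyz : (y : ℝ) ≤ z := by
    refine hy5.trans ?_
    have h5 : Real.log (l1 ^ 2) ≤ Real.log z := by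
      rw [Real.log_pow]
      push_cast
      refine le_trans ?_ hlzE
      have h6 : (2 : ℝ) ≤ l2 ^ 2 := by nlinarith only [a2]
      have h7 : l2 ^ 3 = l2 ^ 2 * l2 := by ring
      have h8 : 2 * l2 ≤ l2 ^ 2 * l2 := mul_le_mul_of_nonneg_right h6 hl2.le
      linarith only [a10, hE2, h8]
    exact (Real.log_le_log_iff (by positivity) hzpos).1 h5
  have hyz' : y ≤ z := by exact_mod_cast hyz
  have hy2' : 2 ≤ y := by
    have : (2 : ℝ) ≤ y := by linarith only [hl1, hl12, hcG1, hy1]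
    exact_mod_cast this
  have hlogy1 : l2 ≤ Real.log y := Real.log_le_log (by linarith only [hl1]) hly
  have hlogy2 : Real.log y ≤ 2 * l2 := by
    have h5 : Real.log y ≤ Real.log (l1 ^ 2) := Real.log_le_log (by linarith only [hl1, hl12, hcG1, hy1]) hy5
    rw [Real.log_pow] at h5
    push_cast at h5
    exact h5
  -- om
  have hom1 : om y z ≤ C3 * (4 * l2 * E / l1) := by
    refine (hmp y z hy2' hyz').trans ?_
    refine mul_le_mul_of_nonneg_left ?_ hC3.le
    rw [div_le_div_iff₀ hlz0 hl10]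
    have h5 : l1 ≤ 2 * E * Real.log z := by
      rw [div_le_iff₀ (by positivity)] at hlz1
      linarith only [hlz1]
    calc Real.log y * l1 ≤ (2 * l2) * (2 * E * Real.log z) := by gcongr
      _ = 4 * l2 * E * Real.log z := by ring
  have hom2 : c4 * (l2 * E / l1) ≤ om y z := by
    refine le_trans ?_ (hOM y z hy2' hyz')
    refine mul_le_mul_of_nonneg_left ?_ hc4.le
    rw [div_le_div_iff₀ hl10 hlz0]
    have h5 : Real.log z * E ≤ l1 := by
      rwa [le_div_iff₀ hEpos] at hlz2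
    calc l2 * E * Real.log z = l2 * (Real.log z * E) := by ring
      _ ≤ Real.log y * l1 := by gcongr
  have hom0 : 0 ≤ om y z := le_trans (by positivity) hom2
  refine ⟨E, z, w, y, hE6, ⟨hzE, z2, z3, hly, hy5, hE5⟩, hyz', hws, hwC,
    ?_, ?_, ?_, hy1, ?_, ?_, ?_, ?_, hE4⟩
  · unfold QQ
    apply primorial_dvd_primorial
    exact Nat.le_floor hw20
  · calc (w : ℝ) * Real.log w ≤ l1 * l2 := by gcongr
      _ ≤ c * G := hcG1
      _ ≤ y := hy1
  · have h5 : 2 * (c * G) ≤ 2 * G := by nlinarith only [hc1, hG0]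
    have h6 : (w : ℝ) * (l2 / 2) ^ 4 ≤ w * Real.log w ^ 4 := by gcongr
    have h7 : l1 * l2 ^ 2 / (32 * C) ≤ w * (l2 / 2) ^ 4 := by
      have h8 : l1 * l2 ^ 2 / (32 * C) = l1 / (C * l2 ^ 2) * (l2 ^ 4 / 32) := by
        field_simp
      rw [h8]
      calc l1 / (C * l2 ^ 2) * (l2 ^ 4 / 32) ≤ (2 * w) * (l2 ^ 4 / 32) := by gcongr
        _ = w * (l2 / 2) ^ 4 := by ring
    have h9 : 2 * G ≤ l1 * l2 ^ 2 / (32 * C) := by
      rw [le_div_iff₀ (by positivity)]
      linarith only [hGle2]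
    linarith only [hl1, hl12, hcG1, hy2, h5, h6, h7, h9]
  · have h5 : (y : ℝ) * Real.log (Real.log w) ^ 2 /
        (Real.log w ^ 2 * Real.log (Real.log (Real.log w))) ≤ 16 * c * l1 := by
      calc (y : ℝ) * Real.log (Real.log w) ^ 2 /
            (Real.log w ^ 2 * Real.log (Real.log (Real.log w)))
          ≤ (2 * (c * G)) * l3 ^ 2 / ((l2 / 2) ^ 2 * (l4 / 2)) := by
            apply div_le_div₀ (by positivity) _ (by positivity) (by gcongr)
            gcongr
        _ = 16 * c * l1 := by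
            rw [hG]
            field_simp
            ring
    calc (y : ℝ) * Real.log (Real.log w) ^ 2 /
          (Real.log w ^ 2 * Real.log (Real.log (Real.log w))) * om y z
        ≤ 16 * c * l1 * (C3 * (4 * l2 * E / l1)) := by
          apply mul_le_mul h5 hom1 hom0 (by positivity)
      _ = 64 * C3 * c * (E * l2) := by
          field_simp
          ring
      _ ≤ 64 * C3 * c * (E * (8 * Real.log E)) := by
          gcongr
      _ = 512 * C3 * (c * (E * Real.log E)) := by ring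
      _ ≤ A * (c * (E * Real.log E)) := by
          apply mul_le_mul_of_nonneg_right hA2 (by positivity)
      _ = A * c * (E * Real.log E) := by ring
  · have h5 : c4 * (l2 / l1) ≤ om y z / E := by
      rw [le_div_iff₀ hEpos]
      calc c4 * (l2 / l1) * E = c4 * (l2 * E / l1) := by ring
        _ ≤ om y z := hom2
    refine le_trans ?_ h5
    rw [div_le_iff₀ (by positivity)]
    have h6 : 1 ≤ A * c4 := by
      rw [div_le_iff₀ hc4] at hA3
      exact hA3
    have h7 : c4 * (l2 / l1) * (A * l1) = (A * c4) * l2 := by field_simp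
    rw [h7]
    calc Real.log w ≤ 1 * l2 := by linarith only [g2]
      _ ≤ (A * c4) * l2 := mul_le_mul_of_nonneg_right h6 hl2.le
  · rw [div_le_iff₀ hEpos]
    refine hom1.trans ?_
    calc C3 * (4 * l2 * E / l1) ≤ C3 * (4 * (2 * Real.log w) * E / l1) := by
          gcongr
          linarith only [g1]
      _ = (8 * C3) * (Real.log w / l1 * E) := by ring
      _ ≤ A * (Real.log w / l1 * E) := by
          apply mul_le_mul_of_nonneg_right _ (by positivity)
          linarith only [hC3, hA2]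
      _ = A * Real.log w / l1 * E := by ring
  · calc B * (l1 * Real.log w) ≤ B * (l1 * l2) := by gcongr
      _ ≤ c * G := hBG
      _ ≤ y := hy1

end Pool.Agent.Helper88.CS
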