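import Pool.Agent.Helper32.CR.FR
import Pool.Agent.Helper88.CS.PM2

/-! # Project CS: many good windows -/

set_option autoImplicit false

open Finset Filter Topology

open scoped Classical

namespace Pool.Agent.Helper88.CS

open Pool.Agent.Helper88.CR
open Pool.Agent.Helper32.CR (pw_le nj one_block pairs num1 om_nonneg large coprime_iff)
open Pool.Agent.Helper88.PP (pr Rg om Sf SS uu vv ee LA VV QQ cost)
open Pool.Agent.Helper88.RR (gg ab TB WB nz DB VM)
open Pool.Agent.Helper88.GM (NI XI gB Sr In)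
open Pool.Agent.Helper88.CG (tw pw th Wt Dt qE mE)

theorem window2 {S : Finset ℕ} {W : ℕ → ℝ} (hW : ∀ n, 0 ≤ W n) {M s : ℕ} {J : ℕ → Finset ℕ}
    {f : ℕ → ℕ → ℝ} (hf : ∀ n j, f n j ≤ if (n + j).Prime then 1 else 0) {P : Finset ℕ}
    {K A₁ A₂ A₃ A₄ B e : ℝ} (hK : 2 ≤ K) (hB : ∀ n ∈ S, W n ≤ B) (hJ : ∀ a < M, (J a).card = s)
    (h1 : ∀ a < M, ∀ j ∈ J a, A₁ ≤ ∑ n ∈ S, f n j * W n)
    (h2 : ∀ a < M, ∀ j ∈ J a, ∀ j' ∈ J a, j ≠ j' →
      ∑ n ∈ S.filter (fun n => (n + j).Prime ∧ (n + j').Prime), W n ≤ A₂)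
    (h3 : ∑ n ∈ S, W n ≤ A₃)
    (h4 : ∑ n ∈ S, W n * ((P.filter (fun h => (n + h).Prime)).card : ℝ) ≤ A₄) (hA₂ : 0 ≤ A₂)
    (hpos : e ≤ M * (s * A₁ - K / 2 * (s ^ 2 * A₂)) - K * A₃ - M * A₄) :
    ∃ N ⊆ S, (∀ n ∈ N, (∀ h ∈ P, ¬ (n + h).Prime) ∧
      K < ∑ a ∈ range M, ((nj (J a) n : ℝ) -
        K * ((nj (J a) n : ℝ) * ((nj (J a) n : ℝ) - 1) / 2))) ∧ e ≤ M * B * N.card := by
  set br : ℕ → ℝ := fun n => ∑ a ∈ range M, (∑ j ∈ J a, f n j -
    K / 2 * ((nj (J a) n : ℝ) * ((nj (J a) n : ℝ) - 1))) - K -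
      M * ((P.filter (fun h => (n + h).Prime)).card : ℝ) with hbr
  have h7' : ∀ n a, ∑ j ∈ J a, f n j ≤ nj (J a) n := by
    intro n a
    calc ∑ j ∈ J a, f n j ≤ ∑ j ∈ J a, (if (n + j).Prime then (1 : ℝ) else 0) :=
          sum_le_sum fun j _ => hf n j
      _ = nj (J a) n := by rw [nj, ← sum_filter, sum_const, nsmul_eq_mul, mul_one]
  have h8' : ∀ n, ∑ a ∈ range M, (∑ j ∈ J a, f n j -
      K / 2 * ((nj (J a) n : ℝ) * ((nj (J a) n : ℝ) - 1))) ≤ ∑ a ∈ range M, ((nj (J a) n : ℝ) -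
        K * ((nj (J a) n : ℝ) * ((nj (J a) n : ℝ) - 1) / 2)) := by
    intro n
    refine sum_le_sum fun a _ => ?_
    have := h7' n a
    have h9 : K / 2 * ((nj (J a) n : ℝ) * ((nj (J a) n : ℝ) - 1)) =
      K * ((nj (J a) n : ℝ) * ((nj (J a) n : ℝ) - 1) / 2) := by ring
    linarith
  have h9' : ∀ n, ∑ a ∈ range M, ((nj (J a) n : ℝ) -
        K * ((nj (J a) n : ℝ) * ((nj (J a) n : ℝ) - 1) / 2)) ≤ M := by
    intro n
    calc _ ≤ ∑ _a ∈ range M, (1 : ℝ) := sum_le_sum fun a _ => one_block K hK _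
      _ = M := by rw [sum_const, card_range, nsmul_eq_mul, mul_one]
  have hkil : ∀ n, 0 ≤ (M : ℝ) * ((P.filter (fun h => (n + h).Prime)).card : ℝ) := by
    intro n
    positivity
  have hbrM : ∀ n, br n ≤ M := by
    intro n
    have a1 := h8' n
    have a2 := h9' n
    have a3 := hkil n
    rw [hbr]
    simp only
    linarith
  refine ⟨S.filter (fun n => 0 < br n), filter_subset _ _, ?_, ?_⟩
  · intro n hn
    have h6 := (mem_filter.1 hn).2
    have h8 := h8' n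
    have h9 := h9' n
    have h10 := hkil n
    rw [hbr] at h6
    simp only at h6
    refine ⟨?_, by linarith⟩
    intro h hh hp
    have h11 : 1 ≤ ((P.filter (fun h => (n + h).Prime)).card : ℝ) := by
      have : 0 < (P.filter (fun h => (n + h).Prime)).card :=
        card_pos.2 ⟨h, mem_filter.2 ⟨hh, hp⟩⟩
      exact_mod_cast this
    have h12 : (M : ℝ) ≤ M * ((P.filter (fun h => (n + h).Prime)).card : ℝ) := by
      have : (0 : ℝ) ≤ M := Nat.cast_nonneg _
      nlinarith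
    linarith
  · have h6 : ∑ n ∈ S, W n * br n ≤ M * B * ((S.filter (fun n => 0 < br n)).card : ℝ) := by
      calc ∑ n ∈ S, W n * br n ≤ ∑ n ∈ S, (if 0 < br n then (M : ℝ) * B else 0) := by
            refine sum_le_sum fun n hn => ?_
            split_ifs with h5
            · have a1 : W n * br n ≤ B * M :=
                mul_le_mul (hB n hn) (hbrM n) h5.le ((hW n).trans (hB n hn))
              linarith
            · exact mul_nonpos_of_nonneg_of_nonpos (hW n) (not_lt.1 h5)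
        _ = M * B * ((S.filter (fun n => 0 < br n)).card : ℝ) := by
            rw [← sum_filter, sum_const, nsmul_eq_mul]
            ring
    refine le_trans ?_ h6
    have h7 : ∑ n ∈ S, W n * br n = ∑ a ∈ range M, (∑ j ∈ J a, ∑ n ∈ S, f n j * W n -
        K / 2 * ∑ n ∈ S, W n * ((nj (J a) n : ℝ) * ((nj (J a) n : ℝ) - 1))) -
        K * ∑ n ∈ S, W n -
        M * ∑ n ∈ S, W n * ((P.filter (fun h => (n + h).Prime)).card : ℝ) := by
      have h8 : ∀ n, W n * br n = ∑ a ∈ range M, (∑ j ∈ J a, f n j * W n -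
          K / 2 * (W n * ((nj (J a) n : ℝ) * ((nj (J a) n : ℝ) - 1)))) - K * W n -
          M * (W n * ((P.filter (fun h => (n + h).Prime)).card : ℝ)) := by
        intro n
        rw [hbr]
        simp only [mul_sub, mul_sum]
        congr 1
        · congr 1
          · refine sum_congr rfl fun a _ => ?_
            congr 1
            · exact sum_congr rfl fun j _ => by ring
            · ring
          · ring
        · ring
      simp only [h8, sum_sub_distrib, mul_sum]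
      congr 1
      congr 1
      congr 1
      · rw [sum_comm]
        exact sum_congr rfl fun a _ => sum_comm
      · rw [sum_comm]
    have h9 : ∀ a ∈ range M, (s : ℝ) * A₁ - K / 2 * (s ^ 2 * A₂) ≤
        ∑ j ∈ J a, ∑ n ∈ S, f n j * W n -
        K / 2 * ∑ n ∈ S, W n * ((nj (J a) n : ℝ) * ((nj (J a) n : ℝ) - 1)) := by
      intro a ha
      have ha' := mem_range.1 ha
      have h10 : (s : ℝ) * A₁ ≤ ∑ j ∈ J a, ∑ n ∈ S, f n j * W n := by
        rw [← hJ a ha', ← nsmul_eq_mul, ← sum_const]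
        exact sum_le_sum fun j hj => h1 a ha' j hj
      have h11 := pairs (W := W) (h2 a ha') hA₂
      rw [hJ a ha'] at h11
      have h12 : K / 2 * ∑ n ∈ S, W n * ((nj (J a) n : ℝ) * ((nj (J a) n : ℝ) - 1)) ≤
          K / 2 * (s ^ 2 * A₂) := mul_le_mul_of_nonneg_left h11 (by linarith)
      linarith
    have h13 := sum_le_sum h9
    rw [sum_const, card_range, nsmul_eq_mul] at h13
    have h14 : K * ∑ n ∈ S, W n ≤ K * A₃ := mul_le_mul_of_nonneg_left h3 (by linarith)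
    have h15 : (M : ℝ) * ∑ n ∈ S, W n * ((P.filter (fun h => (n + h).Prime)).card : ℝ) ≤ M * A₄ :=
      mul_le_mul_of_nonneg_left h4 (Nat.cast_nonneg _)
    rw [h7]
    linarith

theorem num3 {D c₂ δ K CP s o η M : ℝ} (hD0 : 0 < D) (hc0 : 0 < c₂) (hδ0 : 0 < δ)
    (hKCP : 0 < K * CP) (hδK : K * CP * δ = c₂ / 8) (ht1 : δ ≤ s * o) (ht2 : s * o ≤ 2 * δ)
    (hη : η = c₂ * δ / 8) (hM1 : 1 ≤ M) (hM2 : 32 * K ≤ M * (δ * c₂)) (hK : 3 ≤ K) :
    D ≤ M * (s * (D * (c₂ / 2 * o)) - K / 2 * (s ^ 2 * (CP * D * o ^ 2))) -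
      K * (2 * D) - M * (η * D) := by
  have h9 : M * (s * (D * (c₂ / 2 * o)) - K / 2 * (s ^ 2 * (CP * D * o ^ 2))) -
      K * (2 * D) - M * (η * D) =
      D * (M * ((s * o) / 2 * (c₂ - K * CP * (s * o)) - η) - 2 * K) := by ring
  rw [h9]
  have h10 : K * CP * (s * o) ≤ c₂ / 4 := by
    have h11 : K * CP * (s * o) ≤ K * CP * (2 * δ) := mul_le_mul_of_nonneg_left ht2 hKCP.le
    linarith
  have h12 : δ / 2 * (3 * c₂ / 4) ≤ (s * o) / 2 * (c₂ - K * CP * (s * o)) := by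
    have h13 : δ / 2 ≤ (s * o) / 2 := by linarith
    have h14 : 3 * c₂ / 4 ≤ c₂ - K * CP * (s * o) := by linarith
    exact mul_le_mul h13 h14 (by positivity) (by linarith)
  have h15 : δ * c₂ / 4 ≤ (s * o) / 2 * (c₂ - K * CP * (s * o)) - η := by
    rw [hη]
    linarith
  have h16 : M * (δ * c₂ / 4) ≤ M * ((s * o) / 2 * (c₂ - K * CP * (s * o)) - η) :=
    mul_le_mul_of_nonneg_left h15 (by linarith)
  have h17 : 1 ≤ M * ((s * o) / 2 * (c₂ - K * CP * (s * o)) - η) - 2 * K := by linarith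
  exact le_mul_of_one_le_right hD0.le h17

/-- the size of the set of good `n` -/
theorem size2 (M : ℕ) (hM : 1 ≤ M) : ∃ x0 : ℕ, ∀ x w E q : ℕ, x0 ≤ x →
    64 * (w * Real.log (Real.log x) ^ 2) ≤ Real.log x → (E : ℝ) ^ 4 ≤ Real.log x →
    0 < q → q ≤ primorial w →
    M * Real.exp ((E : ℝ) ^ 2 / 2) *
      (x * Real.exp (-(Real.log x / (16 * Real.log (Real.log x) ^ 2)))) ≤ XI (x / 32) x q := by
  have hM0 : (1 : ℝ) ≤ M := by exact_mod_cast hM
  have t1 : Tendsto (fun x : ℕ => Real.log (x : ℝ)) atTop atTop :=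
    Real.tendsto_log_atTop.comp tendsto_natCast_atTop_atTop
  have e1 : ∀ᶠ u : ℝ in atTop, 100 * Real.log u ^ 2 ≤ √u := by
    have h1 : ∀ᶠ u : ℝ in atTop, ‖Real.log u ^ 2‖ ≤ 1 / 400 * ‖id u‖ :=
      (Asymptotics.isLittleO_iff.1 Real.isLittleO_pow_log_id_atTop) (by norm_num)
    filter_upwards [Real.tendsto_sqrt_atTop.eventually h1, eventually_ge_atTop (1 : ℝ)] with u h2 h3
    have h4 : Real.log (√u) = Real.log u / 2 := Real.log_sqrt (by linarith)
    have h5 : 0 ≤ Real.log u := Real.log_nonneg h3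
    rw [id, Real.norm_of_nonneg (by positivity), Real.norm_of_nonneg (by positivity), h4] at h2
    have h6 : Real.log u ^ 2 = 4 * (Real.log u / 2) ^ 2 := by ring
    rw [h6]
    linarith
  have e2 : ∀ᶠ u : ℝ in atTop, 2 * Real.log (4 * M) ≤ √u :=
    Real.tendsto_sqrt_atTop.eventually_ge_atTop _
  obtain ⟨x0, hx0⟩ := eventually_atTop.1 ((t1.eventually e1).and ((t1.eventually e2).and
    ((t1.eventually_ge_atTop 16).and (eventually_ge_atTop 2))))
  refine ⟨x0, fun x w E q hx hw hE hq hqw => ?_⟩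
  obtain ⟨a1, a2, a3, a4⟩ := hx0 x hx
  set l1 := Real.log (x : ℝ) with hl1
  set l2 := Real.log l1 with hl2
  have hl10 : 0 < l1 := by linarith
  have hl20 : 1 ≤ l2 := by
    have h9 : Real.exp 1 ≤ l1 := (Real.exp_one_lt_d9.le.trans (by norm_num)).trans a3
    calc (1 : ℝ) = Real.log (Real.exp 1) := (Real.log_exp 1).symm
      _ ≤ Real.log l1 := Real.log_le_log (Real.exp_pos 1) h9
  have hl22 : 0 < l2 ^ 2 := by positivity
  have hx2 : (2 : ℝ) ≤ x := by exact_mod_cast a4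
  have hs0 : 0 < √l1 := Real.sqrt_pos.2 hl10
  have hss : √l1 * √l1 = l1 := Real.mul_self_sqrt hl10.le
  have hE2 : (E : ℝ) ^ 2 ≤ √l1 := by
    apply Real.le_sqrt_of_sq_le
    calc ((E : ℝ) ^ 2) ^ 2 = (E : ℝ) ^ 4 := by ring
      _ ≤ l1 := hE
  have hw1 : (w : ℝ) ≤ l1 / (64 * l2 ^ 2) := by
    rw [le_div_iff₀ (by positivity)]
    linarith
  -- main comparison of exponents
  have hexp : Real.log (4 * M) + (E : ℝ) ^ 2 / 2 + w * Real.log 4 ≤ l1 / (16 * l2 ^ 2) := by
    have h4 : Real.log (4 : ℝ) ≤ 3 / 2 := by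
      have h5 : Real.log (4 : ℝ) = 2 * Real.log 2 := by
        rw [show (4 : ℝ) = 2 ^ 2 by norm_num, Real.log_pow]
        norm_num
      have := Real.log_two_lt_d9
      linarith
    have h6 : (w : ℝ) * Real.log 4 ≤ l1 / (64 * l2 ^ 2) * (3 / 2) :=
      mul_le_mul hw1 h4 (Real.log_nonneg (by norm_num)) (by positivity)
    have h7 : Real.log (4 * M) + (E : ℝ) ^ 2 / 2 ≤ √l1 := by linarith
    have h8 : √l1 ≤ l1 / (100 * l2 ^ 2) := by
      rw [le_div_iff₀ (by positivity)]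
      calc √l1 * (100 * l2 ^ 2) ≤ √l1 * √l1 := mul_le_mul_of_nonneg_left a1 hs0.le
        _ = l1 := hss
    have h9 : l1 / (100 * l2 ^ 2) + l1 / (64 * l2 ^ 2) * (3 / 2) ≤ l1 / (16 * l2 ^ 2) := by
      have h10 : 0 ≤ l1 / l2 ^ 2 := by positivity
      have h11 : l1 / (100 * l2 ^ 2) = l1 / l2 ^ 2 * (1 / 100) := by field_simp
      have h12 : l1 / (64 * l2 ^ 2) * (3 / 2) = l1 / l2 ^ 2 * (3 / 128) := by
        field_simp
        norm_num
      have h13 : l1 / (16 * l2 ^ 2) = l1 / l2 ^ 2 * (1 / 16) := by field_simp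
      rw [h11, h12, h13]
      linarith
    linarith
  have hq4 : (q : ℝ) ≤ Real.exp (w * Real.log 4) := by
    have h5 : (primorial w : ℝ) ≤ (4 : ℝ) ^ w := by exact_mod_cast primorial_le_four_pow w
    have h6 : Real.exp (w * Real.log 4) = (4 : ℝ) ^ w := by
      rw [Real.exp_nat_mul, Real.exp_log (by norm_num)]
    rw [h6]
    exact le_trans (by exact_mod_cast hqw) h5
  have hq0 : (0 : ℝ) < q := by exact_mod_cast hq
  rw [XI, le_div_iff₀ hq0]
  have h32 : (x : ℝ) / 2 ≤ ((x - x / 32 : ℕ) : ℝ) := by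
    have h5 : x ≤ 2 * (x - x / 32) := by omega
    have h6 : (x : ℝ) ≤ 2 * ((x - x / 32 : ℕ) : ℝ) := by exact_mod_cast h5
    linarith
  have hM4 : (M : ℝ) = Real.exp (Real.log (4 * M)) / 4 := by
    rw [Real.exp_log (by positivity)]
    ring
  have hprod : Real.exp (Real.log (4 * M)) * Real.exp ((E : ℝ) ^ 2 / 2) *
      Real.exp (-(l1 / (16 * l2 ^ 2))) * Real.exp (w * Real.log 4) ≤ 1 := by
    rw [← Real.exp_add, ← Real.exp_add, ← Real.exp_add, Real.exp_le_one_iff]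
    linarith
  calc M * Real.exp ((E : ℝ) ^ 2 / 2) * (x * Real.exp (-(l1 / (16 * l2 ^ 2)))) * q
      ≤ M * Real.exp ((E : ℝ) ^ 2 / 2) * (x * Real.exp (-(l1 / (16 * l2 ^ 2)))) *
        Real.exp (w * Real.log 4) := mul_le_mul_of_nonneg_left hq4 (by positivity)
    _ = x / 4 * (Real.exp (Real.log (4 * M)) * Real.exp ((E : ℝ) ^ 2 / 2) *
      Real.exp (-(l1 / (16 * l2 ^ 2))) * Real.exp (w * Real.log 4)) := by
        rw [Real.exp_log (by positivity)]
        ring
    _ ≤ x / 4 * 1 := mul_le_mul_of_nonneg_left hprod (by positivity)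
    _ ≤ ((x - x / 32 : ℕ) : ℝ) := by linarith

/-- Many good windows, with common blocks. -/
def StmtFR2 : Prop := ∃ c : ℝ, 0 < c ∧ ∀ k : ℕ, 1 ≤ k → ∃ x0 : ℕ, ∀ x : ℕ, x0 ≤ x →
  ∃ (N : Finset ℕ) (y M : ℕ) (u v : ℕ → ℕ), (∀ n ∈ N, n ≤ x) ∧ 1 ≤ y ∧
    (y : ℝ) ≤ Real.log x ^ 2 ∧
    (∀ a < M, u a ≤ v a ∧ v a ≤ y) ∧
    (∀ a, a + 1 < M → (v a : ℝ) + c / k ^ 2 * Rec x ≤ u (a + 1)) ∧
    (∀ n ∈ N, ∀ h ∈ Icc 1 y, (∀ a < M, h ∉ Ioc (u a) (v a)) → ¬ (n + h).Prime) ∧
    (∀ n ∈ N, (k : ℝ) + 2 < ∑ a ∈ range M,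
      (((((Ioc (u a) (v a)).filter (fun j => (n + j).Prime)).card : ℝ)
        - ((k : ℝ) + 2) * ((((Ioc (u a) (v a)).filter (fun j => (n + j).Prime)).card : ℝ) *
          ((((Ioc (u a) (v a)).filter (fun j => (n + j).Prime)).card : ℝ) - 1) / 2)))) ∧
    x * Real.exp (-(Real.log x / (16 * Real.log (Real.log x) ^ 2))) ≤ N.card

theorem fr2 (h1 : StmtLQ) (h2 : StmtKR) (h3 : StmtPQ) (h4 : StmtRC) (h5 : StmtPM2) (h6 : StmtPJ)
    (h7 : Pool.Agent.Helper88.GM.StmtS1) (h8 : Pool.Agent.Helper88.CG.StmtVP)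
    (hsu : Pool.Agent.Helper88.GM.StmtSU) : StmtFR2 := by
  obtain ⟨cK, hcK, h2⟩ := h2
  obtain ⟨CP', hCP', E3, h3⟩ := h3
  obtain ⟨CR, hCR, h4⟩ := h4
  obtain ⟨A, hA, h5⟩ := h5
  obtain ⟨cJ, CJ, hcJ, hCJ, xJ, h6⟩ := h6
  obtain ⟨c1, hc1, E7, h7⟩ := h7
  obtain ⟨c8, hc8, E8, h8⟩ := h8
  obtain ⟨E9, hsu⟩ := hsu
  have hA0 : 0 < A := by linarith
  have hCR0 : 0 < CR := by linarith
  set CP := max CP' 1 with hCP
  have hCP1 : 1 ≤ CP := le_max_right _ _
  set c₂ := min (cJ / A) 1 with hc₂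
  have hc₂0 : 0 < c₂ := lt_min (div_pos hcJ hA0) one_pos
  have hc₂1 : c₂ ≤ 1 := min_le_right _ _
  set c₀ := min 1 (min cK (1 / 2) / (CR * A)) with hc₀
  have hm0 : 0 < min cK (1 / 2) := lt_min hcK (by norm_num)
  have hc₀0 : 0 < c₀ := lt_min one_pos (div_pos hm0 (mul_pos hCR0 hA0))
  have hc₀1 : c₀ ≤ 1 := min_le_left _ _
  have hc₀2 : CR * A * c₀ ≤ min cK (1 / 2) := by
    have h : c₀ ≤ min cK (1 / 2) / (CR * A) := min_le_right _ _
    rw [le_div_iff₀ (mul_pos hCR0 hA0)] at h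
    linarith
  set CM := 2304 * CP / c₂ ^ 2 + 1 with hCM
  have hCM0 : 0 < CM := by positivity
  refine ⟨c₀ / (CR * CM), by positivity, fun k hk => ?_⟩
  have hk1 : (1 : ℝ) ≤ k := by exact_mod_cast hk
  set K : ℝ := (k : ℝ) + 2 with hK
  have hK3 : 3 ≤ K := by linarith
  set δ := c₂ / (8 * K * CP) with hδ
  have h8KC : 0 < 8 * K * CP := by positivity
  have hδ0 : 0 < δ := by positivity
  have hδ1 : δ ≤ 1 := by
    rw [hδ, div_le_one h8KC]
    have h9 : 1 ≤ K * CP := one_le_mul_of_one_le_of_one_le (by linarith) hCP1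
    linarith
  have hδK : K * CP * δ = c₂ / 8 := by
    rw [hδ]
    field_simp
  have hKCP : 0 < K * CP := by positivity
  set η := c₂ * δ / 8 with hη
  have hη0 : 0 < η := by positivity
  have hη1 : η ≤ c₂ / 8 := by
    rw [hη]
    have h9 : c₂ * δ ≤ c₂ := mul_le_of_le_one_right hc₂0.le hδ1
    linarith
  obtain ⟨E1, h1⟩ := h1 η hη0
  obtain ⟨E2, h2⟩ := h2 η hη0
  set M := ⌈32 * K / (δ * c₂)⌉₊ with hM
  have hM1 : 32 * K / (δ * c₂) ≤ M := Nat.le_ceil _
  have hMpos : 1 ≤ M := Nat.one_le_iff_ne_zero.2 (by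
    rw [hM]
    exact (Nat.ceil_pos.2 (by positivity)).ne')
  have hMr : (1 : ℝ) ≤ M := by exact_mod_cast hMpos
  have hM2 : 32 * K ≤ M * (δ * c₂) := by
    rwa [div_le_iff₀ (by positivity)] at hM1
  have hM3 : (M : ℝ) ≤ CM * k ^ 2 := by
    have h9 : (M : ℝ) < 32 * K / (δ * c₂) + 1 := Nat.ceil_lt_add_one (by positivity)
    have h10 : 32 * K / (δ * c₂) = 256 * K ^ 2 * CP / c₂ ^ 2 := by
      rw [hδ]
      field_simp
      ring
    have h11 : K ^ 2 ≤ 9 * (k : ℝ) ^ 2 := by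
      have h15 : K ≤ 3 * k := by linarith
      have h16 := pow_le_pow_left₀ (by linarith) h15 2
      have h17 : (3 * (k : ℝ)) ^ 2 = 9 * (k : ℝ) ^ 2 := by ring
      linarith
    have h12 : 256 * K ^ 2 * CP / c₂ ^ 2 ≤ 2304 * CP / c₂ ^ 2 * k ^ 2 := by
      rw [div_mul_eq_mul_div, div_le_div_iff_of_pos_right (by positivity)]
      have h15 := mul_le_mul_of_nonneg_left h11 (show 0 ≤ 256 * CP by positivity)
      have h16 : 256 * CP * K ^ 2 = 256 * K ^ 2 * CP := by ring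
      have h17 : 256 * CP * (9 * (k : ℝ) ^ 2) = 2304 * CP * (k : ℝ) ^ 2 := by ring
      linarith
    have h13 : (1 : ℝ) ≤ (k : ℝ) ^ 2 := one_le_pow₀ hk1
    rw [h10] at h9
    have h14 : CM * (k : ℝ) ^ 2 = 2304 * CP / c₂ ^ 2 * (k : ℝ) ^ 2 + (k : ℝ) ^ 2 := by
      rw [hCM]
      ring
    linarith
  obtain ⟨w0, h4⟩ := h4 M hMpos
  obtain ⟨xP, h5⟩ := h5 (A + 1) (max CJ 64) c₀
    (max (max E1 E2) (max E3 (max E7 (max E8 (max E9 2)))))
    (by linarith) (hCJ.trans (le_max_left _ _)) hc₀0 hc₀1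
  obtain ⟨xS, hS2⟩ := size2 M hMpos
  obtain ⟨xL, hL⟩ := large (δ / A) (by positivity) w0
  refine ⟨max (max xJ xS) (max xP (max xL 2)), fun x hx => ?_⟩
  have hxJ : xJ ≤ x := ((le_max_left _ _).trans (le_max_left _ _)).trans hx
  have hxS : xS ≤ x := ((le_max_right _ _).trans (le_max_left _ _)).trans hx
  have hxP : xP ≤ x := ((le_max_left _ _).trans (le_max_right _ _)).trans hx
  have hxL : xL ≤ x := (((le_max_left _ _).trans (le_max_right _ _)).trans
    (le_max_right _ _)).trans hx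
  have hx2 : 2 ≤ x := (((le_max_right _ _).trans (le_max_right _ _)).trans
    (le_max_right _ _)).trans hx
  obtain ⟨l1, l2, l3, l4⟩ := hL x hxL
  obtain ⟨E, z, w, y, hE0, hSr, hyz, hwx, hwC', hpQ, hyw, hyw4, hRec, hom, ho1, ho2, hBy, hE4⟩ :=
    h5 x hxP
  have hE1 : E1 ≤ E := ((le_max_left _ _).trans (le_max_left _ _)).trans hE0
  have hE2 : E2 ≤ E := ((le_max_right _ _).trans (le_max_left _ _)).trans hE0
  have hE3 : E3 ≤ E := ((le_max_left _ _).trans (le_max_right _ _)).trans hE0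
  have hE7 : E7 ≤ E := (((le_max_left _ _).trans (le_max_right _ _)).trans
    (le_max_right _ _)).trans hE0
  have hE8 : E8 ≤ E := ((((le_max_left _ _).trans (le_max_right _ _)).trans
    (le_max_right _ _)).trans (le_max_right _ _)).trans hE0
  have hE9 : E9 ≤ E := (((((le_max_left _ _).trans (le_max_right _ _)).trans
    (le_max_right _ _)).trans (le_max_right _ _)).trans (le_max_right _ _)).trans hE0
  have hE22 : 2 ≤ E := (((((le_max_right _ _).trans (le_max_right _ _)).trans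
    (le_max_right _ _)).trans (le_max_right _ _)).trans (le_max_right _ _)).trans hE0
  set L := Real.log x with hLdef
  have hL0 : 0 < L := by linarith
  have hlogL : 1 ≤ Real.log L := by
    have h9 : Real.exp 1 ≤ L := (Real.exp_one_lt_d9.le.trans (by norm_num)).trans l1
    calc (1 : ℝ) = Real.log (Real.exp 1) := (Real.log_exp 1).symm
      _ ≤ Real.log L := Real.log_le_log (Real.exp_pos 1) h9
  have hw64 : 64 * (w * Real.log L ^ 2) ≤ L :=
    (mul_le_mul_of_nonneg_right (le_max_right CJ 64) (by positivity)).trans hwC'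
  have hwC : CJ * (w * Real.log L) ≤ L := by
    refine le_trans ?_ hwC'
    have h9 : (w : ℝ) * Real.log L ≤ w * Real.log L ^ 2 :=
      mul_le_mul_of_nonneg_left (by nlinarith) (Nat.cast_nonneg _)
    exact mul_le_mul (le_max_left _ _) h9 (by positivity)
      ((by linarith : (0 : ℝ) ≤ CJ).trans (le_max_left _ _))
  have hw0 : w0 ≤ w := by exact_mod_cast l4.trans hwx
  have hsq1 : 1 < √L := by
    rw [Real.lt_sqrt (by norm_num)]
    linarith
  have hw1 : (1 : ℝ) < w := lt_of_lt_of_le hsq1 hwx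
  have hwL : (w : ℝ) ≤ L := by
    have h9 : (w : ℝ) ≤ w * Real.log L := le_mul_of_one_le_right (by linarith) hlogL
    have h10 : (w : ℝ) * Real.log L ≤ CJ * (w * Real.log L) :=
      le_mul_of_one_le_left (by linarith) hCJ
    linarith
  set l := Real.log w with hl
  have hl0 : 0 < l := Real.log_pos hw1
  have hlL : l ≤ Real.log L := Real.log_le_log (by linarith) hwL
  have hlL' : l ≤ L := by
    have := Real.log_le_sub_one_of_pos (show (0 : ℝ) < w by linarith)
    linarith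
  obtain ⟨p, hp, hpw, h6⟩ := h6 x w hxJ hwx hwC
  set q := primorial w / p with hq
  have hpd : p ∣ primorial w := hp.dvd_primorial_iff.2 hpw
  have hqd : q ∣ primorial w := Nat.div_dvd_of_dvd hpd
  have hq0 : 0 < q := Nat.div_pos (Nat.le_of_dvd (primorial_pos w) hpd) hp.pos
  have hqQ : q ∣ QQ x := hqd.trans hpQ
  set o := om y z / E with ho
  have ho0 : 0 < o := lt_of_lt_of_le (by positivity) ho1
  have hoL : o ≤ δ := by
    refine ho2.trans ?_
    rw [div_le_iff₀ hL0]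
    have h9 : A * l ≤ A * (δ / A * L) := mul_le_mul_of_nonneg_left (hlL.trans l2) hA0.le
    have h10 : A * (δ / A * L) = δ * L := by field_simp
    linarith
  set s := ⌈δ / o⌉₊ with hs
  have hs1 : δ / o ≤ s := Nat.le_ceil _
  have hs2 : (s : ℝ) < δ / o + 1 := Nat.ceil_lt_add_one (by positivity)
  have ht1 : δ ≤ s * o := by rwa [div_le_iff₀ ho0] at hs1
  have ht2 : s * o ≤ 2 * δ := by
    have h9 : (s : ℝ) * o ≤ (δ / o + 1) * o := mul_le_mul_of_nonneg_right hs2.le ho0.le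
    have h10 : (δ / o + 1) * o = δ + o := by field_simp
    linarith
  have hsy : (s : ℝ) ≤ y / l ^ 2 := by
    have h9 : δ / o ≤ A * L / l := by
      rw [div_le_div_iff₀ ho0 hl0]
      have h10 : l ≤ o * (A * L) := by rwa [div_le_iff₀ (by positivity)] at ho1
      have h11 : δ * l ≤ 1 * l := mul_le_mul_of_nonneg_right hδ1 hl0.le
      have h12 : A * L * o = o * (A * L) := by ring
      linarith
    have h12 : 1 ≤ L / l := by
      rw [le_div_iff₀ hl0]
      linarith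
    have h13 : (A + 1) * (L / l) ≤ y / l ^ 2 := by
      rw [le_div_iff₀ (by positivity)]
      have h14 : (A + 1) * (L / l) * l ^ 2 = (A + 1) * (L * l) := by field_simp
      rw [h14]
      exact hBy
    have h15 : A * L / l = A * (L / l) := by ring
    rw [h15] at h9
    linarith
  obtain ⟨b, hb, hcard, u, v, huv, hgap⟩ := h4 w p y s hw0 hp hpw hyw hyw4 hsy
  have hb' : b < q := hb
  set P := (Icc 1 y).filter (fun h => Nat.Coprime (b + h) q ∧ ∀ a < M, h ∉ Ioc (u a) (v a)) with hP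
  have hPy : P ⊆ Icc 1 y := filter_subset _ _
  have homn := om_nonneg y z
  have hElog : 0 ≤ (E : ℝ) * Real.log E :=
    mul_nonneg (Nat.cast_nonneg _) (Real.log_nonneg (by exact_mod_cast (by omega : 1 ≤ E)))
  have hPc : (P.card : ℝ) * om y z ≤ min cK (1 / 2) * (E * Real.log E) := by
    have h9 : (P.card : ℝ) ≤ CR * (y * Real.log l ^ 2 / (l ^ 2 * Real.log (Real.log l))) := by
      refine le_trans ?_ hcard
      exact_mod_cast card_le_card (fun h hh => by
        rw [hP, mem_filter] at hh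
        exact mem_filter.2 ⟨hh.1, hh.2.1⟩)
    calc (P.card : ℝ) * om y z
        ≤ CR * (y * Real.log l ^ 2 / (l ^ 2 * Real.log (Real.log l))) * om y z :=
          mul_le_mul_of_nonneg_right h9 homn
      _ = CR * (y * Real.log l ^ 2 / (l ^ 2 * Real.log (Real.log l)) * om y z) := by ring
      _ ≤ CR * (A * c₀ * (E * Real.log E)) := mul_le_mul_of_nonneg_left hom hCR0.le
      _ = CR * A * c₀ * (E * Real.log E) := by ring
      _ ≤ min cK (1 / 2) * (E * Real.log E) := mul_le_mul_of_nonneg_right hc₀2 hElog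
  have hPK : (P.card : ℝ) * om y z ≤ cK * (E * Real.log E) :=
    hPc.trans (mul_le_mul_of_nonneg_right (min_le_left _ _) hElog)
  have hER : (2 : ℝ) ≤ E := by exact_mod_cast hE22
  have hlogE : Real.log E ≤ E := by
    have := Real.log_le_sub_one_of_pos (show (0 : ℝ) < E by linarith)
    linarith
  have hPE : (P.card : ℝ) * om y z ≤ (E : ℝ) ^ 2 / 2 := by
    have h9 := hPc.trans (mul_le_mul_of_nonneg_right (min_le_right cK (1 / 2)) hElog)
    have h10 : (E : ℝ) * Real.log E ≤ E * E := mul_le_mul_of_nonneg_left hlogE (by linarith)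
    have h11 : (E : ℝ) ^ 2 = E * E := sq (E : ℝ)
    rw [h11]
    linarith
  have hPE' : (P.card : ℝ) * om y z ≤ (E : ℝ) ^ 2 := by
    have := sq_nonneg (E : ℝ)
    linarith
  set X := XI (x / 32) x q with hX
  have hX0 : 0 < X := by
    rw [hX, XI]
    have : 0 < x - x / 32 := by omega
    positivity
  obtain ⟨m1, m2, -, m4, -, m6⟩ := h8 E hE8
  have hz2 : 2 ≤ z := by
    have h9 : Real.exp E ≤ z := hSr.1
    have h10 : (E : ℝ) + 1 ≤ Real.exp E := Real.add_one_le_exp _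
    have h11 : (2 : ℝ) ≤ z := by linarith
    exact_mod_cast h11
  have hIn : In x (x / 32) x q b := ⟨hqQ, hb', by omega⟩
  have hqm : qE E * mE E ≤ E / 16 := by
    refine le_trans (Nat.mul_le_mul_right _ ?_) m2
    exact Nat.le_self_pow (by norm_num) _
  have hcube : (E / 16 / mE E + 1) ^ 3 ≤ E := by
    refine le_trans ?_ m4
    generalize E / 16 / mE E = tt
    calc (tt + 1) ^ 3 ≤ (2 * (tt + 2)) ^ 3 := Nat.pow_le_pow_left (by omega) 3
      _ ≤ (2 * (tt + 2)) ^ 6 := Nat.pow_le_pow_right (by omega) (by norm_num)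
  obtain ⟨n1, n2⟩ := h7 E z x y hE7 hSr (x / 32) x q b hIn (mE E) (qE E) m1 hqm (m6 z hz2).1 hcube
    0 (by rw [zero_add]; exact hyz) P (by rw [zero_add, zero_add]; exact hPy) hPE'
  have hD1 : 1 ≤ Dt E z y P := n1
  set D := X * Dt E z y P with hD
  have hD0 : 0 < D := mul_pos hX0 (by linarith)
  set S := NI (x / 32) x q b with hS
  have hS3 : ∑ n ∈ S, Wt E z y P n ^ 2 ≤ 2 * D := by
    have h9 := (abs_le.1 n2).2
    have h10 : Real.exp (-(c1 * E)) * X ≤ X := by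
      have h11 : Real.exp (-(c1 * E)) ≤ 1 := Real.exp_le_one_iff.2 (by
        have : 0 ≤ c1 * E := by positivity
        linarith)
      exact mul_le_of_le_one_left hX0.le h11
    have h12 : X ≤ D := by
      rw [hD]
      exact le_mul_of_one_le_right hX0.le hD1
    have h13 : ∑ n ∈ S, Wt E z y P n ^ 2 - D ≤ Real.exp (-(c1 * E)) * X := h9
    linarith
  set J : ℕ → Finset ℕ := fun a => (Ioc (u a) (v a)).filter (fun h => Nat.Coprime (b + h) q)
    with hJ
  have hJy : ∀ a < M, ∀ j ∈ J a, j ∈ Icc 1 y ∧ j ∉ P ∧ Nat.Coprime (b + j) q := by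
    intro a ha j hj
    obtain ⟨h9, h10⟩ := mem_filter.1 hj
    obtain ⟨h11, h12, -⟩ := huv a ha
    have h13 := mem_Ioc.1 h9
    refine ⟨mem_Icc.2 ⟨by omega, by omega⟩, fun h14 => ?_, h10⟩
    rw [hP, mem_filter] at h14
    exact h14.2.2 a ha h9
  have hyL : (y : ℝ) ≤ L ^ 2 := hSr.2.2.2.2.1
  have hL3 : (y : ℝ) ≤ L ^ 3 :=
    hyL.trans (pow_le_pow_right₀ (by linarith) (by norm_num))
  have hyN : 1 ≤ y := by
    have h9 : (1 : ℝ) ≤ y := by
      have h10 : L ≤ y := hSr.2.2.2.1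
      linarith
    exact_mod_cast h9
  have hPcy : P.card ≤ y := (card_le_card hPy).trans (by rw [Nat.card_Icc]; omega)
  have hPz : P ⊆ Icc 1 z := hPy.trans (Icc_subset_Icc_right hyz)
  have hsup : ∀ n ∈ S, Wt E z y P n ^ 2 ≤ Real.exp ((E : ℝ) ^ 2 / 2) := by
    intro n hn
    have hnI : n ∈ (Ioc (x / 32) x).filter (fun n => n % q = b) := hn
    exact hsu E z x y hE9 hSr (mE E) (qE E) m1 hqm (m6 z hz2).1 hcube P hPcy hPz n
      (mem_Ioc.1 (mem_filter.1 hnI).1).2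
  obtain ⟨N, hNS, hN1, hN2⟩ := window2 (S := S) (W := fun n => Wt E z y P n ^ 2)
    (fun n => sq_nonneg _) (M := M) (s := s) (J := J) (f := fun n j => pw x (n + j))
    (fun n j => pw_le x (n + j) hx2) (P := P) (K := K) (A₁ := D * (c₂ / 2 * o))
    (A₂ := CP * D * o ^ 2) (A₃ := 2 * D) (A₄ := η * D) (by linarith) hsup
    (fun a ha => (huv a ha).2.2)
    (fun a ha j hj => by
      obtain ⟨j1, j2, j3⟩ := hJy a ha j hj
      have h9 := h1 E z x y hE1 hSr q b hqQ hb' P hPy hPE j j1 j2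
      have h10 := h6 b j hb' (le_trans (by exact_mod_cast (mem_Icc.1 j1).2) hL3) j3
      refine le_trans ?_ h9
      have h11 : c₂ * (X * o) ≤ ∑ n ∈ S, pw x (n + j) := by
        refine le_trans ?_ h10
        have h12 : o / A ≤ l / L := by
          rw [div_le_div_iff₀ hA0 hL0]
          rw [le_div_iff₀ hL0] at ho2
          linarith
        have h13 : c₂ ≤ cJ / A := min_le_left _ _
        calc c₂ * (X * o) ≤ cJ / A * (X * o) :=
              mul_le_mul_of_nonneg_right h13 (by positivity)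
          _ = cJ * (X * (o / A)) := by ring
          _ ≤ cJ * (X * (l / L)) :=
              mul_le_mul_of_nonneg_left (mul_le_mul_of_nonneg_left h12 hX0.le) hcJ.le
      exact num1 hD1 hX0 ho0 hη0 hη1 hc₂0 hc₂1 h11)
    (fun a ha j hj j' hj' hne => by
      obtain ⟨j1, j2, -⟩ := hJy a ha j hj
      obtain ⟨j1', j2', -⟩ := hJy a ha j' hj'
      refine (h3 E z x y hE3 hSr q b hqQ hb' P hPy hPE j j1 j' j1' j2 j2' hne).trans ?_
      have h9 : CP' ≤ CP := le_max_left _ _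
      have h10 : CP' * D ≤ CP * D := mul_le_mul_of_nonneg_right h9 hD0.le
      exact mul_le_mul_of_nonneg_right h10 (sq_nonneg o))
    hS3 (h2 E z x y hE2 hSr q b hqQ hb' P hPy hPK)
    (mul_nonneg (mul_nonneg (zero_le_one.trans hCP1) hD0.le) (sq_nonneg o))
    (num3 hD0 hc₂0 hδ0 hKCP hδK ht1 ht2 hη hMr hM2 hK3)
  have hx32 : w + 2 ≤ x / 32 := by
    have h9 : ((32 * (w + 2) : ℕ) : ℝ) ≤ x := by
      push_cast
      linarith
    have h10 : 32 * (w + 2) ≤ x := by exact_mod_cast h9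
    omega
  have hcop : ∀ n ∈ N, ∀ j, (n + j).Prime → Nat.Coprime (b + j) q := by
    intro n hn j hj
    have hnI : n ∈ (Ioc (x / 32) x).filter (fun n => n % q = b) := hNS hn
    obtain ⟨hn3, hn4⟩ := mem_filter.1 hnI
    obtain ⟨hn5, hn6⟩ := mem_Ioc.1 hn3
    rw [← coprime_iff hn4 hb']
    rw [Nat.Prime.coprime_iff_not_dvd hj]
    intro h9
    have h10 := hj.dvd_primorial_iff.1 (h9.trans hqd)
    omega
  refine ⟨N, y, M, u, v, fun n hn => ?_, hyN, hyL, fun a ha => ⟨(huv a ha).1, (huv a ha).2.1⟩,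
    ?_, ?_, ?_, ?_⟩
  · have hnI : n ∈ (Ioc (x / 32) x).filter (fun n => n % q = b) := hNS hn
    exact (mem_Ioc.1 (mem_filter.1 hnI).1).2
  · intro a ha
    refine le_trans ?_ (hgap a ha)
    have h9 : c₀ / (CR * CM) / (k : ℝ) ^ 2 * Rec x ≤ y / (CR * M) := by
      have h10 : c₀ / (CR * CM) / (k : ℝ) ^ 2 * Rec x = c₀ * Rec x / (CR * (CM * k ^ 2)) := by
        field_simp
      rw [h10]
      have h11 : c₀ * Rec x / (CR * (CM * k ^ 2)) ≤ y / (CR * (CM * k ^ 2)) :=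
        div_le_div_of_nonneg_right hRec (by positivity)
      have h12 : (y : ℝ) / (CR * (CM * k ^ 2)) ≤ y / (CR * M) :=
        div_le_div_of_nonneg_left (Nat.cast_nonneg _) (by positivity)
          (mul_le_mul_of_nonneg_left hM3 hCR0.le)
      linarith
    linarith
  · intro n hn h hh hblk hpr
    exact (hN1 n hn).1 h (by
      rw [hP, mem_filter]
      exact ⟨hh, hcop n hn h hpr, hblk⟩) hpr
  · intro n hn
    have hn2 := (hN1 n hn).2
    have h9 : ∀ a, nj (J a) n = ((Ioc (u a) (v a)).filter (fun j => (n + j).Prime)).card := by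
      intro a
      rw [nj]
      congr 1
      ext j
      simp only [hJ, mem_filter]
      constructor
      · rintro ⟨⟨h10, -⟩, h11⟩
        exact ⟨h10, h11⟩
      · rintro ⟨h10, h11⟩
        exact ⟨⟨h10, hcop n hn j h11⟩, h11⟩
    simp only [h9] at hn2
    exact hn2
  · have h9 := hS2 x w E q hxS hw64 hE4 hq0 (Nat.le_of_dvd (primorial_pos w) hqd)
    have h10 : X ≤ D := by
      rw [hD]
      exact le_mul_of_one_le_right hX0.le hD1
    have h11 : M * Real.exp ((E : ℝ) ^ 2 / 2) *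
        (x * Real.exp (-(Real.log x / (16 * Real.log (Real.log x) ^ 2)))) ≤
        M * Real.exp ((E : ℝ) ^ 2 / 2) * N.card := (h9.trans h10).trans hN2
    exact le_of_mul_le_mul_left h11 (by positivity)

end Pool.Agent.Helper88.CS
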