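import Pool.Agent.Helper80.CR.G2

/-! # Project CS: from the window to consecutive primes, with the position -/

set_option autoImplicit false

open Finset Filter Topology

open scoped Classical

namespace Pool.Agent.Helper88.CS

open Pool.Agent.Helper80.CR (sep_blocks blk_eq)

/-- The chain lies after `n`. -/
theorem g3 (k n W M U : ℕ) (u v : ℕ → ℕ) (hk : 1 ≤ k) (hblk : ∀ a < M, u a ≤ v a ∧ v a ≤ W)
    (hsep : ∀ a, a + 1 < M → v a + U ≤ u (a + 1))
    (hkill : ∀ h ∈ Icc 1 W, (∀ a < M, h ∉ Ioc (u a) (v a)) → ¬ (n + h).Prime)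
    (hsum : (k : ℝ) + 2 < ∑ a ∈ range M,
      (((((Ioc (u a) (v a)).filter (fun j => (n + j).Prime)).card : ℝ)
        - ((k : ℝ) + 2) * ((((Ioc (u a) (v a)).filter (fun j => (n + j).Prime)).card : ℝ) *
          ((((Ioc (u a) (v a)).filter (fun j => (n + j).Prime)).card : ℝ) - 1) / 2)))) :
    ∃ s : ℕ, n < Nat.nth Nat.Prime s ∧ Nat.nth Nat.Prime (s + k) ≤ n + W ∧
      ∀ i < k, Nat.nth Nat.Prime (s + i) + U < Nat.nth Nat.Prime (s + i + 1) := by
  set p := Nat.nth Nat.Prime with hp
  have hinf := Nat.infinite_setOf_prime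
  have hmono : StrictMono p := Nat.nth_strictMono hinf
  have hprime : ∀ i, (p i).Prime := fun i => Nat.nth_mem_of_infinite hinf i
  set s₀ := Nat.count Nat.Prime (n + 1) with hs₀
  set e₀ := Nat.count Nat.Prime (n + W + 1) with he₀
  have hlow : ∀ i, s₀ ≤ i ↔ n + 1 ≤ p i := fun i => Nat.count_le_iff_le_nth hinf
  have hup : ∀ i, i < e₀ ↔ p i < n + W + 1 := fun i => Nat.lt_nth_iff_count_lt hinf
  -- the primes of the blocks
  set Pa : ℕ → Finset ℕ := fun a => (Ioc (u a) (v a)).filter (fun j => (n + j).Prime) with hPa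
  -- total number
  have hT : ∑ a ∈ range M, (Pa a).card ≤ e₀ - s₀ := by
    have hdis : ∀ a ∈ range M, ∀ a' ∈ range M, a ≠ a' → Disjoint (Pa a) (Pa a') := by
      intro a ha a' ha' hne
      rw [Finset.disjoint_left]
      intro h h1 h2
      exact hne (blk_eq hblk hsep (mem_range.1 ha) (mem_range.1 ha') (mem_filter.1 h1).1
        (mem_filter.1 h2).1 le_rfl (by omega))
    rw [← card_biUnion hdis, ← Nat.card_Ico]
    refine card_le_card_of_injOn (fun j => Nat.count Nat.Prime (n + j)) ?_ ?_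
    · intro j hj
      obtain ⟨a, ha, hja⟩ := mem_biUnion.1 hj
      obtain ⟨hjb, hjp⟩ := mem_filter.1 hja
      have h1 := hblk a (mem_range.1 ha)
      rw [mem_Ioc] at hjb
      have h2 : p (Nat.count Nat.Prime (n + j)) = n + j := Nat.nth_count hjp
      simp only [coe_Ico, Set.mem_Ico]
      rw [hlow, hup, h2]
      omega
    · intro j hj j' hj' hjj
      obtain ⟨a, ha, hja⟩ := mem_biUnion.1 hj
      obtain ⟨hjb, hjp⟩ := mem_filter.1 hja
      obtain ⟨a', ha', hja'⟩ := mem_biUnion.1 hj'
      obtain ⟨hjb', hjp'⟩ := mem_filter.1 hja'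
      have h2 : p (Nat.count Nat.Prime (n + j)) = n + j := Nat.nth_count hjp
      have h3 : p (Nat.count Nat.Prime (n + j')) = n + j' := Nat.nth_count hjp'
      simp only at hjj
      rw [hjj, h3] at h2
      omega
  -- the bad indices
  set Bad : Finset ℕ := (Ico s₀ (e₀ - 1)).filter (fun i => p (i + 1) ≤ p i + U) with hBad
  have hloc : ∀ i ∈ Bad, ∃ a < M, p i - n ∈ Pa a ∧ p (i + 1) - n ∈ Pa a := by
    intro i hi
    obtain ⟨hi1, hi2⟩ := mem_filter.1 hi
    rw [mem_Ico] at hi1
    have h1 : n + 1 ≤ p i := (hlow i).1 hi1.1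
    have h2 : p (i + 1) < n + W + 1 := (hup (i + 1)).1 (by omega)
    have h3 : p i < p (i + 1) := hmono (Nat.lt_succ_self i)
    have key : ∀ q : ℕ, q.Prime → n + 1 ≤ q → q < n + W + 1 → ∃ a < M, q - n ∈ Pa a := by
      intro q hq hq1 hq2
      by_contra hcon
      push Not at hcon
      refine hkill (q - n) (mem_Icc.2 ⟨by omega, by omega⟩) ?_ ?_
      · intro a ha hmem
        refine hcon a ha (mem_filter.2 ⟨hmem, ?_⟩)
        rw [Nat.add_sub_cancel' (by omega)]
        exact hq
      · rw [Nat.add_sub_cancel' (by omega)]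
        exact hq
    obtain ⟨a, ha, ha'⟩ := key (p i) (hprime i) h1 (by omega)
    obtain ⟨b, hb, hb'⟩ := key (p (i + 1)) (hprime _) (by omega) h2
    have hab : a = b := blk_eq hblk hsep ha hb (mem_filter.1 ha').1 (mem_filter.1 hb').1
      (by omega) (by omega)
    subst hab
    exact ⟨a, ha, ha', hb'⟩
  have hBadcard : Bad.card ≤ ∑ a ∈ range M, (Pa a).card.choose 2 := by
    have hsub : Bad ⊆ (range M).biUnion fun a =>
        Bad.filter fun i => p i - n ∈ Pa a ∧ p (i + 1) - n ∈ Pa a := by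
      intro i hi
      obtain ⟨a, ha, ha'⟩ := hloc i hi
      exact mem_biUnion.2 ⟨a, mem_range.2 ha, mem_filter.2 ⟨hi, ha'⟩⟩
    refine (card_le_card hsub).trans (card_biUnion_le.trans (sum_le_sum fun a _ => ?_))
    rw [← card_powersetCard]
    refine card_le_card_of_injOn (fun i => {p i - n, p (i + 1) - n}) ?_ ?_
    · intro i hi
      obtain ⟨hi0, hi1, hi2⟩ := mem_filter.1 hi
      obtain ⟨hi3, -⟩ := mem_filter.1 hi0
      rw [mem_Ico] at hi3
      have h1 : n + 1 ≤ p i := (hlow i).1 hi3.1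
      have h3 : p i < p (i + 1) := hmono (Nat.lt_succ_self i)
      rw [mem_coe, mem_powersetCard]
      refine ⟨?_, card_pair (by omega)⟩
      intro x hx
      rw [mem_insert, mem_singleton] at hx
      rcases hx with rfl | rfl
      · exact hi1
      · exact hi2
    · intro i hi j hj hij
      obtain ⟨hi0, -⟩ := mem_filter.1 hi
      obtain ⟨hi3, -⟩ := mem_filter.1 hi0
      obtain ⟨hj0, -⟩ := mem_filter.1 hj
      obtain ⟨hj3, -⟩ := mem_filter.1 hj0
      rw [mem_Ico] at hi3 hj3
      have h1 : n + 1 ≤ p i := (hlow i).1 hi3.1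
      have h2 : n + 1 ≤ p j := (hlow j).1 hj3.1
      have h3 : p i < p (i + 1) := hmono (Nat.lt_succ_self i)
      have h4 : p j < p (j + 1) := hmono (Nat.lt_succ_self j)
      simp only at hij
      have h5 : p i - n ∈ ({p j - n, p (j + 1) - n} : Finset ℕ) := by
        rw [← hij]
        exact mem_insert_self _ _
      have h6 : p j - n ∈ ({p i - n, p (i + 1) - n} : Finset ℕ) := by
        rw [hij]
        exact mem_insert_self _ _
      rw [mem_insert, mem_singleton] at h5 h6
      have h7 : p i = p j := by omega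
      exact hmono.injective h7
  -- the real inequality
  set S := ∑ a ∈ range M, (Pa a).card.choose 2 with hS
  have hreal : ∑ a ∈ range M, (((Pa a).card : ℝ) - ((k : ℝ) + 2) *
      (((Pa a).card : ℝ) * (((Pa a).card : ℝ) - 1) / 2)) =
      ((∑ a ∈ range M, (Pa a).card : ℕ) : ℝ) - ((k : ℝ) + 2) * (S : ℝ) := by
    rw [sum_sub_distrib, ← mul_sum, hS]
    push_cast
    congr 2
    refine sum_congr rfl fun a _ => ?_
    rw [Nat.cast_choose_two]
  rw [hreal] at hsum
  have hnat : (k + 2) * (S + 1) < ∑ a ∈ range M, (Pa a).card := by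
    have : (((k + 2) * (S + 1) : ℕ) : ℝ) < ((∑ a ∈ range M, (Pa a).card : ℕ) : ℝ) := by
      push_cast
      push_cast at hsum
      linarith
    exact_mod_cast this
  -- existence of a chain
  by_contra hcon
  push Not at hcon
  have hbad : ∀ t, s₀ + t * k + k < e₀ → ∃ i < k, s₀ + t * k + i ∈ Bad := by
    intro t ht
    obtain ⟨i, hi, hi'⟩ := hcon (s₀ + t * k) (by
      have := (hlow (s₀ + t * k)).1 (by omega)
      omega) (by
      have := (hup (s₀ + t * k + k)).1 ht
      omega)
    exact ⟨i, hi, mem_filter.2 ⟨mem_Ico.2 ⟨by omega, by omega⟩, hi'⟩⟩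
  choose! f hf1 hf2 using hbad
  have hcard : (e₀ - s₀ - 1) / k ≤ Bad.card := by
    have h1 : ∀ t ∈ range ((e₀ - s₀ - 1) / k), s₀ + t * k + k < e₀ := by
      intro t ht
      rw [mem_range] at ht
      have h2 : (t + 1) * k ≤ e₀ - s₀ - 1 := by
        calc (t + 1) * k ≤ (e₀ - s₀ - 1) / k * k := Nat.mul_le_mul_right _ ht
          _ ≤ _ := Nat.div_mul_le_self _ _
      rw [add_mul, one_mul] at h2
      omega
    calc (e₀ - s₀ - 1) / k = (range ((e₀ - s₀ - 1) / k)).card := (card_range _).symm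
      _ ≤ Bad.card := by
        refine card_le_card_of_injOn (fun t => s₀ + t * k + f t) ?_ ?_
        · intro t ht
          exact hf2 t (h1 t ht)
        · intro t ht t' ht' htt
          have h3 := hf1 t (h1 t ht)
          have h4 := hf1 t' (h1 t' ht')
          simp only at htt
          have h5 : t * k + f t = t' * k + f t' := by omega
          have h6 : (t * k + f t) / k = t := by
            rw [mul_comm, Nat.mul_add_div (by omega), Nat.div_eq_of_lt h3, add_zero]
          have h7 : (t' * k + f t') / k = t' := by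
            rw [mul_comm, Nat.mul_add_div (by omega), Nat.div_eq_of_lt h4, add_zero]
          rw [← h6, ← h7, h5]
  have h8 : e₀ - s₀ - 1 < k * (Bad.card + 1) := by
    calc e₀ - s₀ - 1 < k * ((e₀ - s₀ - 1) / k + 1) := Nat.lt_mul_div_succ _ (by omega)
      _ ≤ k * (Bad.card + 1) := Nat.mul_le_mul_left _ (by omega)
  have h9 : k * (Bad.card + 1) ≤ k * (S + 1) := Nat.mul_le_mul_left _ (by omega)
  have h10 : (k + 2) * (S + 1) = k * (S + 1) + 2 * (S + 1) := by ring
  omega

end Pool.Agent.Helper88.CS
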