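import Pool.Agent.Helper83.CR.CR
import Pool.Agent.Helper88.AC.Fin
import Pool.Agent.Helper88.CS.FR2
import Pool.Agent.Helper88.CS.G3

/-! # Project CS: the conclusion -/

set_option autoImplicit false

open Finset Filter Topology

open scoped Classical

namespace Pool.Agent.Helper88.CS

open Pool.Agent.Helper88.CR
open Pool.Agent.Helper83.CR (half_log quarter_log)

/-- THE MAIN THEOREM: many chains of gaps of record size. -/
def StmtCS : Prop := ∃ c : ℝ, 0 < c ∧ ∀ k : ℕ, 1 ≤ k → ∃ X : ℝ, ∀ x : ℝ, X ≤ x →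
  x ^ (1 - 1 / Real.log (Real.log x) ^ 2)
    ≤ ({n : ℕ | (Nat.nth Nat.Prime (n + k) : ℝ) ≤ x ∧ ∀ i < k,
        c / k ^ 2 * (Real.log x * Real.log (Real.log x) ^ 2 *
          Real.log (Real.log (Real.log (Real.log x))) / Real.log (Real.log (Real.log x)) ^ 2)
        ≤ (Nat.nth Nat.Prime (n + i + 1) : ℝ) - Nat.nth Nat.Prime (n + i) - 1}.ncard : ℝ)

theorem cs (h1 : StmtFR2) : StmtCS := by
  obtain ⟨c, hc, h⟩ := h1
  refine ⟨c / 16, by positivity, fun k hk => ?_⟩
  obtain ⟨x0, hx0⟩ := h k hk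
  have ev1 : ∀ᶠ x : ℝ in atTop, ‖Real.log x ^ 2‖ ≤ 1 / 2 * ‖id x‖ :=
    (Real.isLittleO_pow_log_id_atTop (n := 2)).bound (by norm_num)
  have t2 : Tendsto (fun x : ℝ => Real.log (Real.log x)) atTop atTop :=
    Real.tendsto_log_atTop.comp Real.tendsto_log_atTop
  have t3 : Tendsto (fun x : ℝ => Real.log (Real.log (Real.log x))) atTop atTop :=
    Real.tendsto_log_atTop.comp t2
  have ev2 : ∀ᶠ x : ℝ in atTop, 4 ≤ Real.log x := Real.tendsto_log_atTop.eventually_ge_atTop 4
  have ev3 : ∀ᶠ x : ℝ in atTop, 4 ≤ Real.log (Real.log x) := t2.eventually_ge_atTop 4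
  have ev4 : ∀ᶠ x : ℝ in atTop, 4 ≤ Real.log (Real.log (Real.log x)) := t3.eventually_ge_atTop 4
  have ev5 : ∀ᶠ x : ℝ in atTop, 2 * (Real.log (Real.log x) + 1) * Real.log (Real.log x) ^ 2 ≤
      3 / 4 * Real.log x := by
    have h1 : ∀ᶠ u : ℝ in atTop, ‖Real.log u ^ 3‖ ≤ 3 / 16 * ‖id u‖ :=
      (Real.isLittleO_pow_log_id_atTop (n := 3)).bound (by norm_num)
    have h2 : ∀ᶠ u : ℝ in atTop, 1 ≤ Real.log u := Real.tendsto_log_atTop.eventually_ge_atTop 1
    have h3 : ∀ᶠ u : ℝ in atTop, 2 * (Real.log u + 1) * Real.log u ^ 2 ≤ 3 / 4 * u := by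
      filter_upwards [h1, h2, eventually_ge_atTop (1 : ℝ)] with u b1 b2 b3
      rw [id, Real.norm_of_nonneg (by positivity), Real.norm_of_nonneg (by linarith)] at b1
      have b4 : 2 * (Real.log u + 1) * Real.log u ^ 2 ≤
          2 * (Real.log u + Real.log u) * Real.log u ^ 2 := by gcongr
      have b5 : 2 * (Real.log u + Real.log u) * Real.log u ^ 2 = 4 * Real.log u ^ 3 := by ring
      linarith
    exact Real.tendsto_log_atTop.eventually h3
  obtain ⟨X, hX⟩ := eventually_atTop.mp (ev1.and (ev2.and (ev3.and (ev4.and ev5))))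
  refine ⟨max X (max 16 (2 * x0 + 2)), fun x hx => ?_⟩
  obtain ⟨e1, e2, e3, e4, e5⟩ := hX x (le_trans (le_max_left _ _) hx)
  have hx16 : 16 ≤ x := le_trans (le_trans (le_max_left _ _) (le_max_right _ _)) hx
  have hx0' : 2 * (x0 : ℝ) + 2 ≤ x := le_trans (le_trans (le_max_right _ _) (le_max_right _ _)) hx
  rw [id, Real.norm_eq_abs, Real.norm_eq_abs, abs_of_nonneg (by positivity : 0 ≤ Real.log x ^ 2),
    abs_of_nonneg (by linarith : 0 ≤ x)] at e1
  set y : ℕ := ⌊x / 2⌋₊ with hy
  have y1 : (y : ℝ) ≤ x / 2 := Nat.floor_le (by linarith)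
  have y2 : x / 2 < y + 1 := Nat.lt_floor_add_one _
  have y3 : x / 4 ≤ y := by linarith
  have y4 : x0 ≤ y := by
    have : (x0 : ℝ) ≤ y := by linarith
    exact_mod_cast this
  obtain ⟨N, Y, M, u, v, a2, a1, a3, a4, a5, a6, a7, a8⟩ := hx0 y y4
  have ly1 : Real.log (x / 4) ≤ Real.log y := Real.log_le_log (by linarith) y3
  have ly2 : Real.log y ≤ Real.log x := Real.log_le_log (by linarith) (by linarith)
  have l1' : Real.log x / 2 ≤ Real.log y := (quarter_log hx16).trans ly1
  have l2' : Real.log (Real.log x) / 2 ≤ Real.log (Real.log y) :=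
    (half_log e2).trans (Real.log_le_log (by linarith) l1')
  have l2u : Real.log (Real.log y) ≤ Real.log (Real.log x) :=
    Real.log_le_log (by linarith) ly2
  have l3 : Real.log (Real.log (Real.log x)) / 2 ≤ Real.log (Real.log (Real.log y)) :=
    (half_log e3).trans (Real.log_le_log (by linarith) l2')
  have l3u : Real.log (Real.log (Real.log y)) ≤ Real.log (Real.log (Real.log x)) :=
    Real.log_le_log (by linarith) l2u
  have l4 : Real.log (Real.log (Real.log (Real.log x))) / 2 ≤
      Real.log (Real.log (Real.log (Real.log y))) :=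
    (half_log e4).trans (Real.log_le_log (by linarith) l3)
  have l4p : 0 ≤ Real.log (Real.log (Real.log (Real.log x))) := Real.log_nonneg (by linarith)
  have hrec : (Real.log x * Real.log (Real.log x) ^ 2 *
        Real.log (Real.log (Real.log (Real.log x))) / Real.log (Real.log (Real.log x)) ^ 2) / 16
      ≤ Rec y := by
    unfold Rec
    have b1 : (Real.log x / 2) * (Real.log (Real.log x) / 2) ^ 2 *
        (Real.log (Real.log (Real.log (Real.log x))) / 2) ≤
        Real.log y * Real.log (Real.log y) ^ 2 * Real.log (Real.log (Real.log (Real.log y))) := by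
      have c2 : (Real.log (Real.log x) / 2) ^ 2 ≤ Real.log (Real.log y) ^ 2 :=
        pow_le_pow_left₀ (by linarith) l2' 2
      have c3 : (Real.log x / 2) * (Real.log (Real.log x) / 2) ^ 2 ≤
          Real.log y * Real.log (Real.log y) ^ 2 :=
        mul_le_mul l1' c2 (by positivity) (by linarith)
      exact mul_le_mul c3 l4 (by linarith) (mul_nonneg (by linarith) (sq_nonneg _))
    have b2 : Real.log (Real.log (Real.log y)) ^ 2 ≤ Real.log (Real.log (Real.log x)) ^ 2 :=
      pow_le_pow_left₀ (by linarith) l3u 2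
    have b3 : 0 < Real.log (Real.log (Real.log y)) ^ 2 := by
      have : 0 < Real.log (Real.log (Real.log y)) := by linarith
      positivity
    have b0 : 0 ≤ (Real.log x / 2) * (Real.log (Real.log x) / 2) ^ 2 *
        (Real.log (Real.log (Real.log (Real.log x))) / 2) := by
      have : 0 ≤ Real.log x := by linarith
      positivity
    calc (Real.log x * Real.log (Real.log x) ^ 2 *
        Real.log (Real.log (Real.log (Real.log x))) / Real.log (Real.log (Real.log x)) ^ 2) / 16
        = (Real.log x / 2) * (Real.log (Real.log x) / 2) ^ 2 *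
        (Real.log (Real.log (Real.log (Real.log x))) / 2) /
          Real.log (Real.log (Real.log x)) ^ 2 := by ring
      _ ≤ (Real.log x / 2) * (Real.log (Real.log x) / 2) ^ 2 *
        (Real.log (Real.log (Real.log (Real.log x))) / 2) /
          Real.log (Real.log (Real.log y)) ^ 2 :=
          div_le_div_of_nonneg_left b0 b3 b2
      _ ≤ _ := div_le_div_of_nonneg_right b1 b3.le
  set U : ℕ := ⌈c / k ^ 2 * Rec y⌉₊ with hU
  have hUle : c / k ^ 2 * Rec y ≤ U := Nat.le_ceil _
  have a5' : ∀ a, a + 1 < M → v a + U ≤ u (a + 1) := by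
    intro a ha
    have q1 := a5 a ha
    by_cases hp : 0 ≤ c / k ^ 2 * Rec y
    · have hvu : v a ≤ u (a + 1) := by
        have : (v a : ℝ) ≤ u (a + 1) := by linarith
        exact_mod_cast this
      have q2 : U ≤ u (a + 1) - v a := by
        rw [hU]
        apply Nat.ceil_le.mpr
        rw [Nat.cast_sub hvu]
        linarith
      omega
    · exfalso
      apply hp
      have : 0 ≤ Rec y := le_trans (by
        have : 0 ≤ Real.log x := by linarith
        positivity) hrec
      positivity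
  obtain ⟨S, s1, s2⟩ := Pool.Agent.Helper88.AC.count N Y k U y a2
    (fun n hn => g3 k n Y M U u v hk a4 a5' (a6 n hn) (a7 n hn))
  have hYl : (Y : ℝ) ≤ Real.log x ^ 2 := by
    refine a3.trans (pow_le_pow_left₀ ?_ ly2 2)
    linarith
  -- the members
  have hmem : ∀ s ∈ S, (Nat.nth Nat.Prime (s + k) : ℝ) ≤ x ∧ ∀ i < k,
        c / 16 / k ^ 2 * (Real.log x * Real.log (Real.log x) ^ 2 *
          Real.log (Real.log (Real.log (Real.log x))) / Real.log (Real.log (Real.log x)) ^ 2)
        ≤ (Nat.nth Nat.Prime (s + i + 1) : ℝ) - Nat.nth Nat.Prime (s + i) - 1 := by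
    intro s hs
    obtain ⟨b1, b2⟩ := s2 s hs
    refine ⟨?_, fun i hi => ?_⟩
    · have c1 : (Nat.nth Nat.Prime (s + k) : ℝ) ≤ y + Y := by exact_mod_cast b1
      linarith
    · have c1 := b2 i hi
      have c2 : (Nat.nth Nat.Prime (s + i) : ℝ) + U + 1 ≤ Nat.nth Nat.Prime (s + i + 1) := by
        exact_mod_cast c1
      have c4 : c / k ^ 2 * ((Real.log x * Real.log (Real.log x) ^ 2 *
          Real.log (Real.log (Real.log (Real.log x))) / Real.log (Real.log (Real.log x)) ^ 2) / 16) ≤
          c / k ^ 2 * Rec y :=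
        mul_le_mul_of_nonneg_left hrec (by positivity)
      have c5 : c / 16 / k ^ 2 * (Real.log x * Real.log (Real.log x) ^ 2 *
          Real.log (Real.log (Real.log (Real.log x))) / Real.log (Real.log (Real.log x)) ^ 2) =
          c / k ^ 2 * ((Real.log x * Real.log (Real.log x) ^ 2 *
          Real.log (Real.log (Real.log (Real.log x))) /
            Real.log (Real.log (Real.log x)) ^ 2) / 16) := by
        ring
      rw [c5]
      linarith
  -- finiteness
  set T : Set ℕ := {n : ℕ | (Nat.nth Nat.Prime (n + k) : ℝ) ≤ x ∧ ∀ i < k,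
        c / 16 / k ^ 2 * (Real.log x * Real.log (Real.log x) ^ 2 *
          Real.log (Real.log (Real.log (Real.log x))) / Real.log (Real.log (Real.log x)) ^ 2)
        ≤ (Nat.nth Nat.Prime (n + i + 1) : ℝ) - Nat.nth Nat.Prime (n + i) - 1} with hT
  have hfin : T.Finite := by
    refine (Set.finite_Iic ⌊x⌋₊).subset ?_
    intro n hn
    have hn1 : (Nat.nth Nat.Prime (n + k) : ℝ) ≤ x := hn.1
    have hmono : StrictMono (Nat.nth Nat.Prime) := Nat.nth_strictMono Nat.infinite_setOf_prime
    have h5 : n + k ≤ Nat.nth Nat.Prime (n + k) := hmono.le_apply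
    rw [Set.mem_Iic]
    apply Nat.le_floor
    have h6 : ((n + k : ℕ) : ℝ) ≤ Nat.nth Nat.Prime (n + k) := by exact_mod_cast h5
    push_cast at h6
    have : (0 : ℝ) ≤ k := Nat.cast_nonneg _
    linarith
  have hST : (S.card : ℝ) ≤ T.ncard := by
    have h5 : (S : Set ℕ) ⊆ T := fun s hs => hmem s (mem_coe.1 hs)
    have h6 := Set.ncard_le_ncard h5 hfin
    rw [Set.ncard_coe_finset] at h6
    exact_mod_cast h6
  refine le_trans ?_ hST
  -- the size
  set l1 := Real.log x with hl1
  set l2 := Real.log l1 with hl2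
  have hxpos : 0 < x := by linarith
  have hl10 : 0 < l1 := by linarith
  have hl20 : 0 < l2 := by linarith
  have hy0 : (0 : ℝ) < y := by linarith
  have hly0 : 0 < Real.log (Real.log y) := by linarith
  have hNS : (N.card : ℝ) ≤ l1 ^ 2 * S.card := by
    have h5 : (N.card : ℝ) ≤ Y * S.card := by exact_mod_cast s1
    exact h5.trans (mul_le_mul_of_nonneg_right hYl (Nat.cast_nonneg _))
  have hexp : Real.log y / (16 * Real.log (Real.log y) ^ 2) ≤ l1 / (4 * l2 ^ 2) := by
    have h5 : 4 * l2 ^ 2 ≤ 16 * Real.log (Real.log y) ^ 2 := by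
      have h6 : (l2 / 2) ^ 2 ≤ Real.log (Real.log y) ^ 2 := pow_le_pow_left₀ (by linarith) l2' 2
      have h7 : (l2 / 2) ^ 2 = l2 ^ 2 / 4 := by ring
      rw [h7] at h6
      linarith
    exact div_le_div₀ hl10.le ly2 (by positivity) h5
  have hmain : x ^ (1 - 1 / l2 ^ 2) * l1 ^ 2 ≤
      y * Real.exp (-(Real.log y / (16 * Real.log (Real.log y) ^ 2))) := by
    have h5 : x ^ (1 - 1 / l2 ^ 2) = x * Real.exp (-(l1 / l2 ^ 2)) := by
      have h51 : Real.exp l1 = x := Real.exp_log hxpos
      rw [Real.rpow_def_of_pos hxpos]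
      calc Real.exp (Real.log x * (1 - 1 / l2 ^ 2)) = Real.exp (l1 + -(l1 / l2 ^ 2)) := by
            congr 1
            rw [← hl1]
            ring
        _ = x * Real.exp (-(l1 / l2 ^ 2)) := by rw [Real.exp_add, h51]
    have h6 : l1 ^ 2 = Real.exp (2 * l2) := by
      have : Real.exp (2 * l2) = Real.exp l2 ^ 2 := by
        rw [← Real.exp_nat_mul]
        norm_num
      rw [this, hl2, Real.exp_log hl10]
    have h7 : (4 : ℝ) ≤ Real.exp 2 := by
      have h8 : Real.exp 2 = Real.exp 1 * Real.exp 1 := by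
        rw [← Real.exp_add]
        norm_num
      have := Real.exp_one_gt_d9
      rw [h8]
      nlinarith
    have h8 : 2 + 2 * l2 - l1 / l2 ^ 2 ≤ -(l1 / (4 * l2 ^ 2)) := by
      have h9 : l1 / (4 * l2 ^ 2) = l1 / l2 ^ 2 * (1 / 4) := by field_simp
      have h10 : 2 * (l2 + 1) ≤ 3 / 4 * (l1 / l2 ^ 2) := by
        rw [← mul_div_assoc, le_div_iff₀ (by positivity)]
        exact e5
      rw [h9]
      linarith
    calc x ^ (1 - 1 / l2 ^ 2) * l1 ^ 2
        = x / 4 * (4 * (Real.exp (2 * l2) * Real.exp (-(l1 / l2 ^ 2)))) := by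
          rw [h5, h6]
          ring
      _ ≤ x / 4 * (Real.exp 2 * (Real.exp (2 * l2) * Real.exp (-(l1 / l2 ^ 2)))) := by
          gcongr
      _ = x / 4 * Real.exp (2 + 2 * l2 - l1 / l2 ^ 2) := by
          rw [← Real.exp_add, ← Real.exp_add]
          congr 2
          ring
      _ ≤ y * Real.exp (-(Real.log y / (16 * Real.log (Real.log y) ^ 2))) := by
          apply mul_le_mul y3 _ (Real.exp_pos _).le hy0.le
          apply Real.exp_le_exp.2
          linarith
  have h9 : x ^ (1 - 1 / l2 ^ 2) * l1 ^ 2 ≤ S.card * l1 ^ 2 := by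
    linarith
  exact le_of_mul_le_mul_right h9 (by positivity)

end Pool.Agent.Helper88.CS
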