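import Pool.Agent.Helper88.CR.MainA
import Pool.Agent.Helper38.CR.RN
import Pool.Agent.Helper88.CS.Fin
import Pool.Agent.Helper5.GM.SU
import Pool.Agent.Helper31.RR.CB

/-! # Project CS: the main theorem -/

set_option autoImplicit false

namespace Pool.Agent.Helper88.CS

open Pool.Agent.Helper88.CR

theorem main : StmtCS :=
  cs (fr2 mLQ mKR mPQ (Pool.Agent.Helper64.CR.rc Pool.Agent.Helper38.CR.rn
    Pool.Agent.Helper85.CR.se pi) (pm2 om_lower) mPJ
    Pool.Agent.Helper88.CG.mS1 Pool.Agent.Helper88.CG.mVP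
    (Pool.Agent.Helper5.GM.su Pool.Agent.Helper31.RR.cb))

end Pool.Agent.Helper88.CS
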